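import Pool.Agent.Lib.MP_c7af3c_ag.SHARP.H75.Key
import Pool.Agent.Lib.MP_c7af3c_ag.LINES.Base

/-!
# MP_c7af3c_ag, project T2: restriction to linear spaces, covariant derivatives (helper65)

`rst P` is the restriction to the space spanned by the `P i`. A pair `g = (G, E)` of a form and a
matrix acts on vectors by `nv D v g = D_(G + E * F) v + E v` and on forms by
`nF D g H = D_(G + E * F) H - E * H`. Leibniz rules, bracket.
-/

set_option autoImplicit false

namespace Pool.Agent.T2.H65

open MvPolynomial Pool.Agent.Gen Pool.Agent.Sharp.H75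

/-! ### derivatives in constant directions -/

section dv

variable {L : Type} [Field L] {n : ℕ}

/-- the derivative in the direction `v` -/
noncomputable def dv (v : Fin (n + 1) → L) :
    Derivation L (MvPolynomial (Fin (n + 1)) L) (MvPolynomial (Fin (n + 1)) L) :=
  mkDerivation L fun p => C (v p)

theorem dv_X (v : Fin (n + 1) → L) (p : Fin (n + 1)) : dv v (X p) = C (v p) :=
  mkDerivation_X L _ p

theorem dv_eq (v : Fin (n + 1) → L) (F : MvPolynomial (Fin (n + 1)) L) :
    dv v F = ∑ p, C (v p) * pderiv p F := by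
  classical
  have h : dv v = ∑ p, (C (v p) : MvPolynomial (Fin (n + 1)) L) • pderiv (R := L) p := by
    refine MvPolynomial.derivation_ext fun i => ?_
    rw [dv_X]
    have h1 : (∑ p, (C (v p) : MvPolynomial (Fin (n + 1)) L) • pderiv (R := L) p) (X i) =
        ∑ p, C (v p) * pderiv p (X i) := by
      rw [← Derivation.coeFnAddMonoidHom_apply, map_sum, Finset.sum_apply]
      rfl
    rw [h1, Finset.sum_eq_single i]
    · rw [pderiv_X_self, mul_one]
    · intro p _ hp
      rw [pderiv_X_of_ne (Ne.symm hp), mul_zero]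
    · intro h; exact absurd (Finset.mem_univ _) h
  rw [h, ← Derivation.coeFnAddMonoidHom_apply, map_sum, Finset.sum_apply]
  rfl

theorem dv_add (u v : Fin (n + 1) → L) (F : MvPolynomial (Fin (n + 1)) L) :
    dv (u + v) F = dv u F + dv v F := by
  simp only [dv_eq, Pi.add_apply, map_add, add_mul, Finset.sum_add_distrib]

theorem dv_smul (a : L) (v : Fin (n + 1) → L) (F : MvPolynomial (Fin (n + 1)) L) :
    dv (a • v) F = a • dv v F := by
  simp only [dv_eq, Pi.smul_apply, smul_eq_mul, C_mul, mul_assoc, Finset.smul_sum, smul_eq_C_mul]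

theorem dv_zero (F : MvPolynomial (Fin (n + 1)) L) : dv (0 : Fin (n + 1) → L) F = 0 := by
  simp [dv_eq]

theorem dv_sum {ι : Type} (s : Finset ι) (v : ι → Fin (n + 1) → L)
    (F : MvPolynomial (Fin (n + 1)) L) : dv (∑ i ∈ s, v i) F = ∑ i ∈ s, dv (v i) F := by
  classical
  induction s using Finset.induction_on with
  | empty => simp [dv_zero]
  | insert a s ha ih => rw [Finset.sum_insert ha, Finset.sum_insert ha, dv_add, ih]

theorem dv_hom {F : MvPolynomial (Fin (n + 1)) L} {e : ℕ} (hF : F.IsHomogeneous (e + 1))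
    (v : Fin (n + 1) → L) : (dv v F).IsHomogeneous e := by
  rw [dv_eq]
  refine IsHomogeneous.sum _ _ _ fun p _ => ?_
  have := (isHomogeneous_C (Fin (n + 1)) (v p)).mul (hF.pderiv (i := p))
  simpa using this

theorem dv_lf (v a : Fin (n + 1) → L) : dv v (lf a) = C (dt a v) := by
  rw [dv_eq]
  simp only [pderiv_lf]
  unfold dt
  rw [map_sum]
  refine Finset.sum_congr rfl fun p _ => ?_
  rw [← C_mul, mul_comm]

theorem dv_comm (u v : Fin (n + 1) → L) (F : MvPolynomial (Fin (n + 1)) L) :
    dv u (dv v F) = dv v (dv u F) := by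
  have h : ⁅dv u, dv v⁆ = (0 : Derivation L (MvPolynomial (Fin (n + 1)) L) _) := by
    refine MvPolynomial.derivation_ext fun i => ?_
    rw [Derivation.commutator_apply, dv_X, dv_X]
    simp
  have h1 := congrArg (fun d => d F) h
  simp only [Derivation.commutator_apply, Derivation.zero_apply] at h1
  exact sub_eq_zero.1 h1

theorem dco_dv (δ : Derivation ℤ L L) (v : Fin (n + 1) → L) (F : MvPolynomial (Fin (n + 1)) L) :
    dco δ (dv v F) = dv (fun p => δ (v p)) F + dv v (dco δ F) := by
  rw [dv_eq, dv_eq, dv_eq, dco_sum, ← Finset.sum_add_distrib]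
  refine Finset.sum_congr rfl fun p _ => ?_
  rw [dco_mul, dco_C, dco_pderiv]

theorem dco_sub {σ : Type} (δ : Derivation ℤ L L) (F G : MvPolynomial σ L) :
    dco δ (F - G) = dco δ F - dco δ G := by
  ext J
  rw [coeff_dco, coeff_sub, coeff_sub, coeff_dco, coeff_dco, map_sub]

end dv

/-! ### restriction to linear spaces -/

section rst

variable {L : Type} [Field L] {n r : ℕ} (P : Fin r → Fin (n + 1) → L)

/-- the restriction to the space spanned by the `P i` -/
noncomputable def rst : MvPolynomial (Fin (n + 1)) L →ₐ[L] MvPolynomial (Fin r) L :=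
  aeval fun j => ∑ i, C (P i j) * X i

theorem rst_X (j : Fin (n + 1)) : rst P (X j) = ∑ i, C (P i j) * X i := by
  unfold rst
  rw [aeval_X]

theorem rst_C (a : L) : rst P (C a) = C a := by
  unfold rst
  rw [aeval_C]
  rfl

theorem rst_smul (a : L) (F : MvPolynomial (Fin (n + 1)) L) : rst P (a • F) = a • rst P F :=
  map_smul _ _ _

theorem rform_hom (u : Fin r → L) : (∑ i, C (u i) * X i : MvPolynomial (Fin r) L).IsHomogeneous 1 := by
  refine IsHomogeneous.sum _ _ _ fun i _ => ?_
  simpa using (isHomogeneous_C _ (u i)).mul (isHomogeneous_X L i)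

theorem rst_hom {F : MvPolynomial (Fin (n + 1)) L} {e : ℕ} (hF : F.IsHomogeneous e) :
    (rst P F).IsHomogeneous e := by
  have h := hF.aeval (fun j => ∑ i, C (P i j) * X i) (n := 1) fun j => rform_hom fun i => P i j
  rwa [one_mul] at h

theorem rst_lf (a : Fin (n + 1) → L) : rst P (lf a) = ∑ i, C (dt a (P i)) * X i := by
  unfold lf dt
  rw [map_sum]
  simp only [map_mul, rst_C, rst_X, Finset.mul_sum]
  rw [Finset.sum_comm]
  refine Finset.sum_congr rfl fun i _ => ?_
  rw [map_sum, Finset.sum_mul]
  refine Finset.sum_congr rfl fun q _ => ?_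
  rw [map_mul]
  ring

/-- the derivation of the coefficients of a restriction -/
theorem dco_rst (δ : Derivation ℤ L L) (F : MvPolynomial (Fin (n + 1)) L) :
    dco δ (rst P F) = rst P (dco δ F) +
      ∑ i, X i * rst P (dv (fun p => δ (P i p)) F) := by
  classical
  have h0 : ∀ F : MvPolynomial (Fin (n + 1)) L, ∑ i, X i * rst P (dv (fun p => δ (P i p)) F) =
      ∑ p, rst P (pderiv p F) * ∑ i, C (δ (P i p)) * X i := by
    intro F
    simp only [dv_eq, map_sum, map_mul, rst_C, Finset.mul_sum]
    rw [Finset.sum_comm]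
    refine Finset.sum_congr rfl fun p _ => Finset.sum_congr rfl fun i _ => ?_
    ring
  rw [h0]
  induction F using MvPolynomial.induction_on with
  | C a =>
    rw [rst_C, dco_C, dco_C, rst_C]
    simp
  | add F G hF hG =>
    rw [map_add, dco_add, hF, hG, dco_add, map_add]
    simp only [map_add, add_mul, Finset.sum_add_distrib]
    ring
  | mul_X F j hF =>
    rw [map_mul, dco_mul, hF, dco_mul, dco_X, mul_zero, add_zero, map_mul]
    have h1 : dco δ (rst P (X j)) = ∑ i, C (δ (P i j)) * X i := by
      rw [rst_X, dco_sum]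
      refine Finset.sum_congr rfl fun i _ => ?_
      rw [dco_mul, dco_C, dco_X, mul_zero, add_zero]
    have h2 : ∀ p, rst P (pderiv p (F * X j)) * ∑ i, C (δ (P i p)) * X i =
        rst P (pderiv p F) * (∑ i, C (δ (P i p)) * X i) * rst P (X j) +
          if p = j then rst P F * ∑ i, C (δ (P i p)) * X i else 0 := by
      intro p
      rw [Derivation.leibniz]
      simp only [smul_eq_mul]
      rw [map_add, map_mul, map_mul]
      split_ifs with h
      · subst h
        rw [pderiv_X_self, map_one]
        ring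
      · rw [pderiv_X_of_ne (Ne.symm h), map_zero]
        ring
    simp only [h2, Finset.sum_add_distrib, h1, Finset.sum_ite_eq', Finset.mem_univ, if_true]
    rw [add_mul, Finset.sum_mul]
    ring

theorem pderiv_rst (k : Fin r) (F : MvPolynomial (Fin (n + 1)) L) :
    pderiv k (rst P F) = rst P (dv (P k) F) := by
  classical
  rw [dv_eq]
  simp only [map_sum, map_mul, rst_C]
  induction F using MvPolynomial.induction_on with
  | C a => rw [rst_C]; simp
  | add F G hF hG =>
    rw [map_add, map_add, hF, hG]
    simp only [map_add, mul_add, Finset.sum_add_distrib]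
  | mul_X F j hF =>
    rw [map_mul, Derivation.leibniz, hF]
    have h1 : pderiv k (rst P (X j)) = C (P k j) := by
      rw [rst_X, map_sum, Finset.sum_eq_single k]
      · rw [Derivation.leibniz, pderiv_X_self, pderiv_C]
        simp
      · intro i _ hi
        rw [Derivation.leibniz, pderiv_X_of_ne hi, pderiv_C]
        simp
      · intro h
        exact absurd (Finset.mem_univ _) h
    have h2 : ∀ p, C (P k p) * rst P (pderiv p (F * X j)) =
        C (P k p) * rst P (pderiv p F) * rst P (X j) +
          if p = j then C (P k p) * rst P F else 0 := by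
      intro p
      rw [Derivation.leibniz]
      simp only [smul_eq_mul]
      rw [map_add, map_mul, map_mul]
      split_ifs with h
      · subst h
        rw [pderiv_X_self, map_one]
        ring
      · rw [pderiv_X_of_ne (Ne.symm h), map_zero]
        ring
    simp only [h2, Finset.sum_add_distrib, h1, Finset.sum_ite_eq', Finset.mem_univ, if_true,
      smul_eq_mul]
    rw [← Finset.sum_mul]
    ring

/-- dual vectors of independent vectors -/
theorem rst_dual (hP : LinearIndependent L P) :
    ∃ Q : Fin r → Fin (n + 1) → L, ∀ i i', dt (Q i) (P i') = if i = i' then 1 else 0 := by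
  classical
  obtain ⟨g, hg⟩ := LinearMap.exists_leftInverse_of_injective
    (Fintype.linearCombination L P)
    (LinearMap.ker_eq_bot.2 (linearIndependent_iff_injective_fintypeLinearCombination.1 hP))
  refine ⟨fun i j => g (Pi.single j 1) i, fun i i' => ?_⟩
  have h1 : g (P i') = Pi.single i' 1 := by
    have h2 := LinearMap.congr_fun hg (Pi.single i' 1)
    rw [LinearMap.comp_apply, LinearMap.id_apply, Fintype.linearCombination_apply_single,
      one_smul] at h2
    exact h2
  have h3 : P i' = ∑ j, P i' j • (Pi.single j 1 : Fin (n + 1) → L) := by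
    rw [← pi_eq_sum_univ' (P i')]
  have h4 : g (P i') i = ∑ j, g (Pi.single j 1) i * P i' j := by
    conv_lhs => rw [h3]
    rw [map_sum, Finset.sum_apply]
    refine Finset.sum_congr rfl fun j _ => ?_
    rw [map_smul, Pi.smul_apply, smul_eq_mul, mul_comm]
  unfold dt
  rw [← h4, h1, Pi.single_apply]

/-- every form on the space is a restriction -/
theorem rst_surj (hP : LinearIndependent L P) {G : MvPolynomial (Fin r) L} {e : ℕ}
    (hG : G.IsHomogeneous e) : ∃ A : MvPolynomial (Fin (n + 1)) L, A.IsHomogeneous e ∧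
      rst P A = G := by
  classical
  obtain ⟨Q, hQ⟩ := rst_dual P hP
  refine ⟨aeval (fun i => lf (Q i)) G, ?_, ?_⟩
  · have h := hG.aeval (fun i => lf (Q i)) (n := 1) fun i => lf_hom _
    rwa [one_mul] at h
  · have h : (rst P).comp (aeval (fun i => lf (Q i))) = AlgHom.id L _ := by
      apply MvPolynomial.algHom_ext
      intro i
      rw [AlgHom.comp_apply, aeval_X, rst_lf, AlgHom.id_apply]
      simp only [hQ]
      rw [Finset.sum_eq_single i]
      · rw [if_pos rfl, C_1, one_mul]
      · intro i' _ h
        rw [if_neg (Ne.symm h), C_0, zero_mul]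
      · intro h; exact absurd (Finset.mem_univ _) h
    exact AlgHom.congr_fun h G

/-- a form zero on the space has derivatives zero in the directions of the space -/
theorem rst_dv_of_mem {H : MvPolynomial (Fin (n + 1)) L} (h0 : rst P H = 0)
    {v : Fin (n + 1) → L} (hv : v ∈ Submodule.span L (Set.range P)) : rst P (dv v H) = 0 := by
  induction hv using Submodule.span_induction with
  | mem v hv =>
    obtain ⟨i, rfl⟩ := hv
    rw [← pderiv_rst, h0, map_zero]
  | zero => rw [dv_zero, map_zero]
  | add u v _ _ hu hv => rw [dv_add, map_add, hu, hv, add_zero]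
  | smul a v _ hv => rw [dv_smul, rst_smul, hv, smul_zero]

end rst

/-! ### covariant derivatives -/

section nab

variable {L : Type} [Field L] {n : ℕ} {d : Fin 1 → ℕ} (D : DSys L n 1 d)

/-- pairs of a form and a matrix -/
abbrev GE (L : Type) [Field L] (n : ℕ) : Type :=
  MvPolynomial (Fin (n + 1)) L × (Fin (n + 1) → Fin (n + 1) → L)

/-- the action of a matrix on forms is linear in the matrix -/
noncomputable def afL (F : MvPolynomial (Fin (n + 1)) L) :
    (Fin (n + 1) → Fin (n + 1) → L) →ₗ[L] MvPolynomial (Fin (n + 1)) L where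
  toFun E := af E F
  map_add' E E' := by
    unfold af lf
    rw [← Finset.sum_add_distrib]
    refine Finset.sum_congr rfl fun p _ => ?_
    rw [← add_mul, ← Finset.sum_add_distrib]
    congr 1
    refine Finset.sum_congr rfl fun q _ => ?_
    rw [Pi.add_apply, Pi.add_apply, map_add, add_mul]
  map_smul' a E := by
    unfold af lf
    rw [RingHom.id_apply, smul_eq_C_mul, Finset.mul_sum]
    refine Finset.sum_congr rfl fun p _ => ?_
    rw [← mul_assoc, Finset.mul_sum]
    congr 1
    refine Finset.sum_congr rfl fun q _ => ?_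
    rw [Pi.smul_apply, Pi.smul_apply, smul_eq_mul, map_mul, mul_assoc]

theorem afL_apply (F : MvPolynomial (Fin (n + 1)) L) (E : Fin (n + 1) → Fin (n + 1) → L) :
    afL F E = af E F := rfl

/-- the action of a matrix on vectors is linear in the matrix -/
def mvL (v : Fin (n + 1) → L) : (Fin (n + 1) → Fin (n + 1) → L) →ₗ[L] (Fin (n + 1) → L) where
  toFun E := fun p => dt (E p) v
  map_add' E E' := by
    funext p
    simp [dt, add_mul, Finset.sum_add_distrib]
  map_smul' a E := by
    funext p
    simp [dt, Finset.mul_sum, mul_assoc]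

theorem mvL_apply (v : Fin (n + 1) → L) (E : Fin (n + 1) → Fin (n + 1) → L) (p : Fin (n + 1)) :
    mvL v E p = dt (E p) v := rfl

/-- the form `G + E * F` -/
noncomputable def GF : GE L n →ₗ[L] MvPolynomial (Fin (n + 1)) L :=
  (LinearMap.fst L _ _) + (afL (D.F 0)).comp (LinearMap.snd L _ _)

theorem GF_apply (g : GE L n) : GF D g = g.1 + af g.2 (D.F 0) := rfl

/-- the derivation `D_(G + E * F)` -/
noncomputable def nD (g : GE L n) : Derivation ℤ L L := DG D fun _ => GF D g

/-- the action on vectors, as a linear map in the pair -/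
noncomputable def nv (v : Fin (n + 1) → L) : GE L n →ₗ[L] (Fin (n + 1) → L) :=
  (D.V v 0).comp (GF D) + (mvL v).comp (LinearMap.snd L _ _)

/-- the action on forms -/
noncomputable def nF (g : GE L n) (H : MvPolynomial (Fin (n + 1)) L) :
    MvPolynomial (Fin (n + 1)) L := dco (nD D g) H - af g.2 H

theorem nD_apply (v : Fin (n + 1) → L) (g : GE L n) (p : Fin (n + 1)) :
    nD D g (v p) = D.V v 0 (GF D g) p := by
  unfold nD
  rw [← VT_apply, VT_eq, Fin.sum_univ_one]

theorem nv_apply (v : Fin (n + 1) → L) (g : GE L n) (p : Fin (n + 1)) :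
    nv D v g p = nD D g (v p) + dt (g.2 p) v := by
  rw [nD_apply]
  rfl

theorem nv_zero_right (v : Fin (n + 1) → L) (G : MvPolynomial (Fin (n + 1)) L) :
    nv D v (G, 0) = D.V v 0 G := by
  unfold nv GF
  simp

theorem dt_add (a u v : Fin (n + 1) → L) : dt a (u + v) = dt a u + dt a v := by
  simp [dt, mul_add, Finset.sum_add_distrib]

theorem dt_smul (a : Fin (n + 1) → L) (c : L) (v : Fin (n + 1) → L) :
    dt a (c • v) = c * dt a v := by
  unfold dt
  rw [Finset.mul_sum]
  refine Finset.sum_congr rfl fun q _ => ?_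
  rw [Pi.smul_apply, smul_eq_mul]
  ring

theorem nv_add (u v : Fin (n + 1) → L) (g : GE L n) : nv D (u + v) g = nv D u g + nv D v g := by
  funext p
  rw [Pi.add_apply, nv_apply, nv_apply, nv_apply, Pi.add_apply, map_add, dt_add]
  ring

theorem nv_smul (a : L) (v : Fin (n + 1) → L) (g : GE L n) :
    nv D (a • v) g = nD D g a • v + a • nv D v g := by
  funext p
  rw [Pi.add_apply, Pi.smul_apply, Pi.smul_apply, nv_apply, nv_apply, Pi.smul_apply, smul_eq_mul,
    Derivation.leibniz, dt_smul]
  simp only [smul_eq_mul]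
  ring

theorem nv_zero (g : GE L n) : nv D (0 : Fin (n + 1) → L) g = 0 := by
  funext p
  rw [nv_apply]
  simp [dt]

/-- a pair stabilises a space of vectors -/
def Stab (g : GE L n) (S : Submodule L (Fin (n + 1) → L)) : Prop := ∀ v ∈ S, nv D v g ∈ S

theorem stab_span {g : GE L n} {s : Set (Fin (n + 1) → L)}
    (h : ∀ v ∈ s, nv D v g ∈ Submodule.span L s) : Stab D g (Submodule.span L s) := by
  intro v hv
  induction hv using Submodule.span_induction with
  | mem v hv => exact h v hv
  | zero => rw [nv_zero]; exact Submodule.zero_mem _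
  | add u v _ _ hu hv => rw [nv_add]; exact Submodule.add_mem _ hu hv
  | smul a v hv0 hv =>
    rw [nv_smul]
    exact Submodule.add_mem _ (Submodule.smul_mem _ _ hv0) (Submodule.smul_mem _ _ hv)

/-- the restriction of `E * F` -/
theorem rst_af {r : ℕ} (P : Fin r → Fin (n + 1) → L) (E : Fin (n + 1) → Fin (n + 1) → L)
    (H : MvPolynomial (Fin (n + 1)) L) :
    rst P (af E H) = ∑ i, X i * rst P (dv (mvL (P i) E) H) := by
  unfold af
  simp only [dv_eq, map_sum, map_mul, rst_C, rst_lf, mvL_apply, Finset.mul_sum, Finset.sum_mul]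
  rw [Finset.sum_comm]
  refine Finset.sum_congr rfl fun i _ => Finset.sum_congr rfl fun p _ => ?_
  ring

/-- the first Leibniz rule -/
theorem dco_rst_nab {r : ℕ} (P : Fin r → Fin (n + 1) → L) (g : GE L n)
    (H : MvPolynomial (Fin (n + 1)) L) :
    dco (nD D g) (rst P H) = rst P (nF D g H) + ∑ i, X i * rst P (dv (nv D (P i) g) H) := by
  rw [dco_rst, nF, map_sub, rst_af]
  have h : ∀ i, X i * rst P (dv (nv D (P i) g) H) =
      X i * rst P (dv (fun p => nD D g (P i p)) H) + X i * rst P (dv (mvL (P i) g.2) H) := by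
    intro i
    have h1 : nv D (P i) g = (fun p => nD D g (P i p)) + mvL (P i) g.2 := by
      funext p
      rw [nv_apply]
      rfl
    rw [h1, dv_add, map_add, mul_add]
  simp only [h, Finset.sum_add_distrib]
  ring

/-- the bracket of an action of a matrix and a derivative -/
theorem af_dv (E : Fin (n + 1) → Fin (n + 1) → L) (v : Fin (n + 1) → L)
    (H : MvPolynomial (Fin (n + 1)) L) :
    dv v (af E H) = af E (dv v H) + dv (mvL v E) H := by
  have hE : ∀ H : MvPolynomial (Fin (n + 1)) L,
      af E H = mkDerivation L (fun p => lf (E p)) H := by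
    intro H
    have h : mkDerivation L (fun p => lf (E p)) =
        ∑ p, (lf (E p) : MvPolynomial (Fin (n + 1)) L) • pderiv (R := L) p := by
      refine MvPolynomial.derivation_ext fun i => ?_
      rw [mkDerivation_X]
      have h1 : (∑ p, (lf (E p) : MvPolynomial (Fin (n + 1)) L) • pderiv (R := L) p) (X i) =
          ∑ p, lf (E p) * pderiv p (X i) := by
        rw [← Derivation.coeFnAddMonoidHom_apply, map_sum, Finset.sum_apply]
        rfl
      rw [h1, Finset.sum_eq_single i]
      · rw [pderiv_X_self, mul_one]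
      · intro p _ hp
        rw [pderiv_X_of_ne (Ne.symm hp), mul_zero]
      · intro h; exact absurd (Finset.mem_univ _) h
    rw [h, ← Derivation.coeFnAddMonoidHom_apply, map_sum, Finset.sum_apply]
    rfl
  rw [hE, hE]
  have h : ⁅dv v, mkDerivation L (fun p => lf (E p))⁆ = dv (mvL v E) := by
    refine MvPolynomial.derivation_ext fun i => ?_
    rw [Derivation.commutator_apply, mkDerivation_X, dv_X, dv_X, dv_lf, mvL_apply]
    have : mkDerivation L (fun p => lf (E p)) (C (v i)) = 0 := MvPolynomial.derivation_C _ _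
    rw [this, sub_zero]
  have h1 := congrArg (fun d => d H) h
  simp only [Derivation.commutator_apply] at h1
  linear_combination h1

/-- the second Leibniz rule -/
theorem nF_dv (g : GE L n) (v : Fin (n + 1) → L) (H : MvPolynomial (Fin (n + 1)) L) :
    nF D g (dv v H) = dv (nv D v g) H + dv v (nF D g H) := by
  unfold nF
  have h1 : nv D v g = (fun p => nD D g (v p)) + mvL v g.2 := by
    funext p
    rw [nv_apply]
    rfl
  rw [map_sub, af_dv, h1, dv_add, dco_dv]
  ring

/-- the derivations commute up to the bracket: `[D_G, D_H]` -/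
theorem DG_br (hc : Lines.Comm D) {G H : MvPolynomial (Fin (n + 1)) L}
    (hG : G.IsHomogeneous (d 0)) (hH : H.IsHomogeneous (d 0)) (f : L) :
    DG D (fun _ => G) (DG D (fun _ => H) f) - DG D (fun _ => H) (DG D (fun _ => G) f) =
      DG D (fun _ => dco (DG D fun _ => G) H - dco (DG D fun _ => H) G) f := by
  have h0 : Sharp.H75.Comm D := fun m I m' J _ _ f => hc m I m' J f
  have h1 : Sharp.H75.Hom d (fun _ : Fin 1 => G) := fun m => by
    rw [Subsingleton.elim m 0]; exact hG
  have h2 : Sharp.H75.Hom d (fun _ : Fin 1 => H) := fun m => by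
    rw [Subsingleton.elim m 0]; exact hH
  exact DG_comm h0 h1 h2 f

theorem GF_hom {g : GE L n} (hg : g.1.IsHomogeneous (d 0)) : (GF D g).IsHomogeneous (d 0) :=
  hg.add (af_hom _ (D.hom 0))

/-- the bracket of two pairs -/
noncomputable def br (g h : GE L n) : GE L n :=
  (nF D g h.1 - nF D h g.1, fun p q => nD D g (h.2 p q) - nD D h (g.2 p q) +
    (dt (g.2 p) (fun r => h.2 r q) - dt (h.2 p) (fun r => g.2 r q)))

theorem nF_hom {g : GE L n} {H : MvPolynomial (Fin (n + 1)) L} {e : ℕ} (hH : H.IsHomogeneous e) :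
    (nF D g H).IsHomogeneous e := by
  unfold nF
  have h1 := dco_hom (nD D g) hH
  have h2 := af_hom g.2 hH
  exact h1.sub h2

theorem nF_F {g : GE L n} (hg : g.1.IsHomogeneous (d 0)) : nF D g (D.F 0) = g.1 := by
  have h2 : Sharp.H75.Hom d (fun _ : Fin 1 => GF D g) := fun m => by
    rw [Subsingleton.elim m 0]; exact GF_hom D hg
  unfold nF nD
  rw [dco_F D h2 0, GF_apply]
  ring

theorem pderiv_comm2 (p r : Fin (n + 1)) (H : MvPolynomial (Fin (n + 1)) L) :
    pderiv p (pderiv r H) = pderiv r (pderiv p H) := by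
  have h : ⁅pderiv (R := L) p, pderiv (R := L) r⁆ =
      (0 : Derivation L (MvPolynomial (Fin (n + 1)) L) _) := by
    refine MvPolynomial.derivation_ext fun i => ?_
    rw [Derivation.commutator_apply, pderiv_X, pderiv_X]
    classical
    by_cases h1 : r = i
    · by_cases h2 : p = i
      · subst h1; subst h2; simp
      · simp [Pi.single_apply, h1]
        split_ifs <;> simp
    · simp [Pi.single_apply, h1]
      split_ifs <;> simp
  have h1 := congrArg (fun d => d H) h
  simp only [Derivation.commutator_apply, Derivation.zero_apply] at h1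
  exact sub_eq_zero.1 h1

theorem af_comm (E E' : Fin (n + 1) → Fin (n + 1) → L) (H : MvPolynomial (Fin (n + 1)) L) :
    af E' (af E H) - af E (af E' H) =
      af (fun p q => dt (E p) (fun r => E' r q) - dt (E' p) (fun r => E r q)) H := by
  have key : ∀ (E E' : Fin (n + 1) → Fin (n + 1) → L) (H : MvPolynomial (Fin (n + 1)) L),
      af E' (af E H) = ∑ p, (lf (fun q => dt (E p) (fun r => E' r q)) * pderiv p H) +
        ∑ p, ∑ r, lf (E p) * (lf (E' r) * pderiv r (pderiv p H)) := by
    intro E E' H
    unfold af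
    simp only [map_sum, Derivation.leibniz, smul_eq_mul, pderiv_lf, mul_add,
      Finset.sum_add_distrib, Finset.mul_sum]
    have e1 : ∑ r, ∑ p, lf (E' r) * (pderiv p H * C (E p r)) =
        ∑ p, (lf (fun q => dt (E p) (fun r => E' r q)) * pderiv p H) := by
      rw [Finset.sum_comm]
      refine Finset.sum_congr rfl fun p _ => ?_
      have : (lf (fun q => dt (E p) (fun r => E' r q)) : MvPolynomial (Fin (n + 1)) L) =
          ∑ r, C (E p r) * lf (E' r) := by
        unfold lf dt
        simp only [map_sum, Finset.mul_sum, Finset.sum_mul, map_mul]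
        rw [Finset.sum_comm]
        refine Finset.sum_congr rfl fun r _ => Finset.sum_congr rfl fun q _ => ?_
        ring
      rw [this, Finset.sum_mul]
      refine Finset.sum_congr rfl fun r _ => ?_
      ring
    have e2 : ∑ r, ∑ p, lf (E' r) * (lf (E p) * pderiv r (pderiv p H)) =
        ∑ p, ∑ r, lf (E p) * (lf (E' r) * pderiv r (pderiv p H)) := by
      rw [Finset.sum_comm]
      refine Finset.sum_congr rfl fun p _ => Finset.sum_congr rfl fun r _ => ?_
      ring
    rw [e2, e1]
    ring
  rw [key E E', key E' E]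
  have e3 : ∑ p, ∑ r, lf (E' p) * (lf (E r) * pderiv r (pderiv p H)) =
      ∑ p, ∑ r, lf (E p) * (lf (E' r) * pderiv r (pderiv p H)) := by
    rw [Finset.sum_comm]
    refine Finset.sum_congr rfl fun p _ => Finset.sum_congr rfl fun r _ => ?_
    rw [pderiv_comm2]
    ring
  rw [e3]
  unfold af
  rw [add_sub_add_right_eq_sub, ← Finset.sum_sub_distrib]
  refine Finset.sum_congr rfl fun p _ => ?_
  have : (lf (fun q => dt (E p) (fun r => E' r q) - dt (E' p) (fun r => E r q)) :
      MvPolynomial (Fin (n + 1)) L) = lf (fun q => dt (E p) (fun r => E' r q)) -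
        lf (fun q => dt (E' p) (fun r => E r q)) := by
    unfold lf
    rw [← Finset.sum_sub_distrib]
    refine Finset.sum_congr rfl fun q _ => ?_
    rw [map_sub, sub_mul]
  rw [this, sub_mul]

theorem GF_br {g h : GE L n} (hg : g.1.IsHomogeneous (d 0)) (hh : h.1.IsHomogeneous (d 0)) :
    dco (nD D g) (GF D h) - dco (nD D h) (GF D g) = GF D (br D g h) := by
  have h1 : ∀ {g : GE L n}, g.1.IsHomogeneous (d 0) → dco (nD D g) (D.F 0) = GF D g := by
    intro g hg
    have h2 : Sharp.H75.Hom d (fun _ : Fin 1 => GF D g) := fun m => by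
      rw [Subsingleton.elim m 0]; exact GF_hom D hg
    exact dco_F D h2 0
  have h3 : af (fun p q => nD D g (h.2 p q) - nD D h (g.2 p q) +
      (dt (g.2 p) (fun r => h.2 r q) - dt (h.2 p) (fun r => g.2 r q))) (D.F 0) =
      af (fun p q => nD D g (h.2 p q)) (D.F 0) - af (fun p q => nD D h (g.2 p q)) (D.F 0) +
        (af h.2 (af g.2 (D.F 0)) - af g.2 (af h.2 (D.F 0))) := by
    rw [af_comm]
    simp only [← afL_apply]
    rw [← map_sub, ← map_add]
    rfl
  have hadd : ∀ (E : Fin (n + 1) → Fin (n + 1) → L) (A B : MvPolynomial (Fin (n + 1)) L),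
      af E (A + B) = af E A + af E B := by
    intro E A B
    unfold af
    rw [← Finset.sum_add_distrib]
    refine Finset.sum_congr rfl fun p _ => ?_
    rw [map_add, mul_add]
  rw [GF_apply D (br D g h)]
  unfold br nF
  simp only
  rw [h3]
  have e1 : ∀ (g h : GE L n), g.1.IsHomogeneous (d 0) → dco (nD D g) (GF D h) =
      dco (nD D g) h.1 + af (fun p q => nD D g (h.2 p q)) (D.F 0) + af h.2 g.1 +
        af h.2 (af g.2 (D.F 0)) := by
    intro g h hg
    rw [GF_apply D h, dco_add, dco_af, h1 hg, GF_apply D g, hadd]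
    ring
  rw [e1 g h hg, e1 h g hh]
  ring

/-- the bracket -/
theorem nv_br (hc : Lines.Comm D) {g h : GE L n} (hg : g.1.IsHomogeneous (d 0))
    (hh : h.1.IsHomogeneous (d 0)) (v : Fin (n + 1) → L) :
    nv D (nv D v h) g - nv D (nv D v g) h = nv D v (br D g h) := by
  funext p
  have h1 := DG_br D hc (GF_hom D hg) (GF_hom D hh) (v p)
  rw [show (DG D fun _ => GF D g) = nD D g from rfl, show (DG D fun _ => GF D h) = nD D h from rfl,
    GF_br D hg hh, show (DG D fun _ => GF D (br D g h)) = nD D (br D g h) from rfl] at h1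
  rw [Pi.sub_apply, nv_apply D (nv D v h) g, nv_apply D (nv D v g) h, nv_apply D v (br D g h),
    nv_apply D v h, nv_apply D v g, ← h1, map_add, map_add]
  have h2 : ∀ (δ : Derivation ℤ L L) (a u : Fin (n + 1) → L), δ (dt a u) =
      dt (fun q => δ (a q)) u + dt a (fun q => δ (u q)) := by
    intro δ a u
    unfold dt
    rw [map_sum, ← Finset.sum_add_distrib]
    refine Finset.sum_congr rfl fun q _ => ?_
    rw [Derivation.leibniz]
    simp only [smul_eq_mul]
    ring
  have h3 : ∀ (g h : GE L n), dt (g.2 p) (nv D v h) =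
      dt (g.2 p) (fun q => nD D h (v q)) + dt (fun q => dt (g.2 p) (fun r => h.2 r q)) v := by
    intro g h
    have : nv D v h = (fun q => nD D h (v q)) + fun q => dt (h.2 q) v := by
      funext q
      rw [nv_apply]
      rfl
    rw [this, dt_add]
    congr 1
    unfold dt
    simp only [Finset.mul_sum, Finset.sum_mul]
    rw [Finset.sum_comm]
    refine Finset.sum_congr rfl fun q _ => Finset.sum_congr rfl fun r _ => ?_
    ring
  rw [h2, h2, h3 g h, h3 h g]
  have h4 : dt ((br D g h).2 p) v = dt (fun q => nD D g (h.2 p q)) v -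
      dt (fun q => nD D h (g.2 p q)) v + (dt (fun q => dt (g.2 p) (fun r => h.2 r q)) v -
        dt (fun q => dt (h.2 p) (fun r => g.2 r q)) v) := by
    unfold br dt
    simp only
    rw [← Finset.sum_sub_distrib, ← Finset.sum_sub_distrib, ← Finset.sum_add_distrib]
    refine Finset.sum_congr rfl fun q _ => ?_
    ring
  rw [h4]
  ring

theorem br_fst (g h : GE L n) : (br D g h).1 = nF D g h.1 - nF D h g.1 := rfl

theorem br_hom {g h : GE L n} (hg : g.1.IsHomogeneous (d 0)) (hh : h.1.IsHomogeneous (d 0)) :
    (br D g h).1.IsHomogeneous (d 0) := (nF_hom D hh).sub (nF_hom D hg)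

theorem stab_br (hc : Lines.Comm D) {g h : GE L n} (hg : g.1.IsHomogeneous (d 0))
    (hh : h.1.IsHomogeneous (d 0)) {S : Submodule L (Fin (n + 1) → L)} (h1 : Stab D g S)
    (h2 : Stab D h S) : Stab D (br D g h) S := by
  intro v hv
  rw [← nv_br D hc hg hh]
  exact Submodule.sub_mem _ (h1 _ (h2 v hv)) (h2 _ (h1 v hv))

/-- a form zero on a stable space stays zero on it -/
theorem rst_nF_zero {r : ℕ} {P : Fin r → Fin (n + 1) → L} {g : GE L n}
    {H : MvPolynomial (Fin (n + 1)) L} (h0 : rst P H = 0)
    (hg : ∀ i, nv D (P i) g ∈ Submodule.span L (Set.range P)) : rst P (nF D g H) = 0 := by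
  have h1 := dco_rst_nab D P g H
  rw [h0, dco_zero] at h1
  have h2 : ∑ i, X i * rst P (dv (nv D (P i) g) H) = 0 :=
    Finset.sum_eq_zero fun i _ => by rw [rst_dv_of_mem P h0 (hg i), mul_zero]
  rw [h2, add_zero] at h1
  exact h1.symm

/-- a form zero on the space, all directions but one stable -/
theorem rst_nF_one {r : ℕ} {P : Fin r → Fin (n + 1) → L} {g : GE L n}
    {H : MvPolynomial (Fin (n + 1)) L} (h0 : rst P H = 0) (k : Fin r)
    (hg : ∀ i, i ≠ k → nv D (P i) g ∈ Submodule.span L (Set.range P)) :
    rst P (nF D g H) = - (X k * rst P (dv (nv D (P k) g) H)) := by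
  have h1 := dco_rst_nab D P g H
  rw [h0, dco_zero] at h1
  rw [Finset.sum_eq_single k (fun i _ hi => by rw [rst_dv_of_mem P h0 (hg i hi), mul_zero])
    (fun h => absurd (Finset.mem_univ _) h)] at h1
  linear_combination -h1

/-- the derivative in the direction `e` -/
theorem rst_dv_nF {r : ℕ} {P : Fin r → Fin (n + 1) → L} {g : GE L n}
    {H : MvPolynomial (Fin (n + 1)) L} {e : Fin (n + 1) → L} (h0 : rst P (dv e H) = 0)
    (hg : ∀ i, nv D (P i) g ∈ Submodule.span L (Set.range P)) :
    rst P (dv e (nF D g H)) = - rst P (dv (nv D e g) H) := by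
  have h1 := rst_nF_zero D h0 hg
  rw [nF_dv, map_add] at h1
  linear_combination h1

end nab

end Pool.Agent.T2.H65
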