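import Pool.Agent.Lib.MP_c7af3c_ag.T2.H65.Line
import Pool.Agent.Lib.MP_c7af3c_ag.T2.Iface

/-!
# MP_c7af3c_ag, project T2: module LINE, statement of the interface (helper65)
-/

set_option autoImplicit false

namespace Pool.Agent.T2.H65

theorem lineSt : LineStatement :=
  fun _ _ _ _ _ _ _ _ _ _ hS _ y hxy => finrank_E1 rfl hS y hxy

end Pool.Agent.T2.H65
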