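import Pool.Agent.Lib.MP_c7af3c_ag.T2.H65.LineB

/-!
# MP_c7af3c_ag, project T2: binary forms (helper65)
-/

set_option autoImplicit false

namespace Pool.Agent.T2.H65

open MvPolynomial Pool.Agent.Gen Pool.Agent.Sharp.H75 Module

section

variable {L : Type} [Field L]

/-- the exponent `(a, b)` -/
noncomputable def m2 (a b : ℕ) : Fin 2 →₀ ℕ := Finsupp.single 0 a + Finsupp.single 1 b

theorem m2_0 (a b : ℕ) : m2 a b 0 = a := by simp [m2]

theorem m2_1 (a b : ℕ) : m2 a b 1 = b := by simp [m2]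

theorem eq_m2 (J : Fin 2 →₀ ℕ) : J = m2 (J 0) (J 1) := by
  ext i
  fin_cases i
  · simp [m2]
  · simp [m2]

theorem m2_inj {a b a' b' : ℕ} : m2 a b = m2 a' b' ↔ a = a' ∧ b = b' := by
  constructor
  · intro h
    have h0 := DFunLike.congr_fun h 0
    have h1 := DFunLike.congr_fun h 1
    rw [m2_0, m2_0] at h0
    rw [m2_1, m2_1] at h1
    exact ⟨h0, h1⟩
  · rintro ⟨rfl, rfl⟩
    rfl

theorem m2_degree (a b : ℕ) : (m2 a b).degree = a + b := by
  rw [Finsupp.degree_eq_sum, Fin.sum_univ_two, m2_0, m2_1]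

/-- the coefficients of a binary form of degree `m` -/
noncomputable def coB (L : Type) [Field L] (m : ℕ) :
    MvPolynomial (Fin 2) L →ₗ[L] (Fin (m + 1) → L) :=
  LinearMap.pi fun i => MvPolynomial.lcoeff L (m2 (m - i) i)

theorem coB_apply (m : ℕ) (q : MvPolynomial (Fin 2) L) (i : Fin (m + 1)) :
    coB L m q i = coeff (m2 (m - i) i) q := rfl

theorem coB_zero {m : ℕ} {q : MvPolynomial (Fin 2) L} (hq : q.IsHomogeneous m)
    (h : coB L m q = 0) : q = 0 := by
  ext J
  rw [coeff_zero]
  by_contra hne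
  have h1 := degree_of_hom hq hne
  rw [Finsupp.degree_eq_sum, Fin.sum_univ_two] at h1
  have h2 := congrFun h ⟨J 1, by omega⟩
  rw [coB_apply] at h2
  have h3 : m2 (m - J 1) (J 1) = J := by
    conv_rhs => rw [eq_m2 J]
    rw [m2_inj]
    omega
  rw [h3] at h2
  exact hne h2

/-- a binary form with `(a I_0 + c I_1) f_I = 0`, `a /= c`, is a monomial -/
theorem one_mono {f : MvPolynomial (Fin 2) L} {m : ℕ} [CharZero L] (hf : f.IsHomogeneous m)
    (h0 : f ≠ 0) {a c : L} (hac : a ≠ c)
    (h : ∀ I : Fin 2 →₀ ℕ, (a * (I 0 : L) + c * (I 1 : L)) * coeff I f = 0) :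
    ∃ i ≤ m, ∃ t : L, t ≠ 0 ∧ f = monomial (m2 (m - i) i) t := by
  obtain ⟨J, hJ⟩ := MvPolynomial.ne_zero_iff.1 h0
  have h1 := degree_of_hom hf hJ
  rw [Finsupp.degree_eq_sum, Fin.sum_univ_two] at h1
  have h3 : m2 (m - J 1) (J 1) = J := by
    conv_rhs => rw [eq_m2 J]
    rw [m2_inj]
    omega
  refine ⟨J 1, by omega, coeff J f, hJ, ?_⟩
  rw [h3]
  ext K
  rw [coeff_monomial]
  split_ifs with hJK
  · rw [hJK]
  · by_contra hne
    have h2 := degree_of_hom hf hne
    rw [Finsupp.degree_eq_sum, Fin.sum_univ_two] at h2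
    have e1 := (mul_eq_zero.1 (h J)).resolve_right hJ
    have e2 := (mul_eq_zero.1 (h K)).resolve_right hne
    have c1 : (J 0 : L) + (J 1 : L) = m := by exact_mod_cast h1
    have c2 : (K 0 : L) + (K 1 : L) = m := by exact_mod_cast h2
    have e3 : (a - c) * ((J 0 : L) - K 0) = 0 := by
      linear_combination e1 - e2 - c * (c1 - c2)
    rcases mul_eq_zero.1 e3 with h4 | h4
    · exact hac (sub_eq_zero.1 h4)
    · have h5 : J 0 = K 0 := by exact_mod_cast sub_eq_zero.1 h4
      apply hJK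
      rw [eq_m2 J, eq_m2 K, m2_inj]
      omega

/-- `6 a f + b X_1 df/dX_0 = 0`, `a /= 0`, gives `f = 0` -/
theorem zero_nil {f : MvPolynomial (Fin 2) L} {m : ℕ} [CharZero L] (hm : m ≠ 0) {a b : L}
    (ha : a ≠ 0) (h : C ((m : L) * a) * f + C b * (X 1 * pderiv 0 f) = 0) : f = 0 := by
  have key : ∀ k : ℕ, ∀ I : Fin 2 →₀ ℕ, I 1 = k → coeff I f = 0 := by
    intro k
    induction k using Nat.strong_induction_on with
    | _ k ih =>
      intro I hI
      have h1 := congrArg (coeff I) h
      rw [coeff_add, coeff_C_mul, coeff_C_mul, coeff_X_mul', coeff_zero] at h1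
      have h2 : (if (1 : Fin 2) ∈ I.support then coeff (I - Finsupp.single 1 1) (pderiv 0 f)
          else 0) = 0 := by
        split_ifs with hs
        · have h3 := coeff_X_mul_pderiv (L := L) (0 : Fin 2) f
            (Finsupp.single 0 1 + (I - Finsupp.single 1 1))
          rw [coeff_X_mul] at h3
          rw [h3, ih (I 1 - 1), mul_zero]
          · have := Finsupp.mem_support_iff.1 hs
            omega
          · simp
        · rfl
      rw [h2, mul_zero, add_zero] at h1
      rcases mul_eq_zero.1 h1 with h3 | h3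
      · exact absurd h3 (mul_ne_zero (by exact_mod_cast hm) ha)
      · exact h3
  ext I
  rw [coeff_zero]
  exact key _ I rfl

end

/-! ### rank one matrices -/

section ten

variable {L : Type} [Field L] {n : ℕ}

/-- the matrix `v (x) phi` -/
def ten (φ v : Fin (n + 1) → L) : Fin (n + 1) → Fin (n + 1) → L := fun p q => v p * φ q

theorem mvL_ten (φ v z : Fin (n + 1) → L) : mvL z (ten φ v) = dt φ z • v := by
  funext p
  rw [mvL_apply, _root_.Pi.smul_apply, smul_eq_mul]
  unfold ten dt
  rw [Finset.sum_mul]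
  refine Finset.sum_congr rfl fun q _ => ?_
  ring

theorem af_ten (φ v : Fin (n + 1) → L) (F : MvPolynomial (Fin (n + 1)) L) :
    af (ten φ v) F = lf φ * dv v F := by
  unfold af
  rw [dv_eq, Finset.mul_sum]
  refine Finset.sum_congr rfl fun p _ => ?_
  have : (lf (ten φ v p) : MvPolynomial (Fin (n + 1)) L) = C (v p) * lf φ := by
    unfold lf ten
    rw [Finset.mul_sum]
    refine Finset.sum_congr rfl fun q _ => ?_
    rw [C_mul, mul_assoc]
  rw [this]
  ring

variable {d : Fin 1 → ℕ} (D : DSys L n 1 d)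

theorem nv_E (z : Fin (n + 1) → L) (E : Fin (n + 1) → Fin (n + 1) → L) :
    nv D z ((0 : MvPolynomial (Fin (n + 1)) L), E) = D.V z 0 (af E (D.F 0)) + mvL z E := by
  funext p
  rw [nv_apply, _root_.Pi.add_apply, nD_apply, GF_apply, zero_add, mvL_apply]

/-- the values of `V` on `E * F` -/
theorem V_af (z : Fin (n + 1) → L) (E : Fin (n + 1) → Fin (n + 1) → L) :
    nv D z (af E (D.F 0), 0) = nv D z (0, E) - mvL z E := by
  rw [nv_zero_right, nv_E, add_sub_cancel_right]

/-- restrictions to smaller spaces -/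
theorem rst_span {r s : ℕ} {P : Fin r → Fin (n + 1) → L} {Q : Fin s → Fin (n + 1) → L}
    (h : ∀ j, Q j ∈ Submodule.span L (Set.range P)) {H : MvPolynomial (Fin (n + 1)) L}
    (h0 : rst P H = 0) : rst Q H = 0 := by
  classical
  choose m hm using fun j => (Submodule.mem_span_range_iff_exists_fun L).1 (h j)
  have h1 : (aeval (fun i => ∑ j, C (m j i) * X j) : MvPolynomial (Fin r) L →ₐ[L]
      MvPolynomial (Fin s) L).comp (rst P) = rst Q := by
    apply MvPolynomial.algHom_ext
    intro p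
    rw [AlgHom.comp_apply, rst_X, rst_X, map_sum]
    simp only [map_mul, aeval_X, algHom_C, algebraMap_eq, Finset.mul_sum]
    rw [Finset.sum_comm]
    refine Finset.sum_congr rfl fun j _ => ?_
    rw [← hm j, Finset.sum_apply, map_sum, Finset.sum_mul]
    refine Finset.sum_congr rfl fun i _ => ?_
    rw [_root_.Pi.smul_apply, smul_eq_mul, C_mul]
    ring
  rw [← h1, AlgHom.comp_apply, h0, map_zero]

end ten

end Pool.Agent.T2.H65
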