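import Mathlib

/-!
# MP_c7af3c_ag, project T2: ranks (helper65)
-/

set_option autoImplicit false

namespace Pool.Agent.T2.H65

open Module

section

variable {L M A B : Type*} [Field L] [AddCommGroup M] [Module L M] [AddCommGroup A] [Module L A]
  [AddCommGroup B] [Module L B] [FiniteDimensional L A] [FiniteDimensional L B]

/-- the rank of a pair of maps -/
theorem rank_pair (f : M →ₗ[L] A) (g : M →ₗ[L] B) (I : Submodule L M) :
    finrank L (I.map (f.prod g)) =
      finrank L (I.map f) + finrank L ((I ⊓ LinearMap.ker f).map g) := by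
  set Z := I.map (f.prod g) with hZ
  let p : Z →ₗ[L] A := (LinearMap.fst L A B).comp Z.subtype
  have h1 := p.finrank_range_add_finrank_ker
  have h2 : LinearMap.range p = I.map f := by
    rw [LinearMap.range_comp, Submodule.range_subtype, hZ, ← Submodule.map_comp]
    congr 1
  have h3 : finrank L (LinearMap.ker p) = finrank L ((I ⊓ LinearMap.ker f).map g) := by
    let q : LinearMap.ker p →ₗ[L] B :=
      ((LinearMap.snd L A B).comp Z.subtype).comp (LinearMap.ker p).subtype
    have hq : Function.Injective q := by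
      intro z w hzw
      have h4 : (z : Z).1.1 = 0 := LinearMap.mem_ker.1 z.2
      have h4' : (w : Z).1.1 = 0 := LinearMap.mem_ker.1 w.2
      have h5 : (z : Z).1.2 = (w : Z).1.2 := hzw
      apply Subtype.ext
      apply Subtype.ext
      exact Prod.ext (h4.trans h4'.symm) h5
    have hr : LinearMap.range q = (I ⊓ LinearMap.ker f).map g := by
      ext b
      constructor
      · rintro ⟨z, rfl⟩
        obtain ⟨m, hm, hm2⟩ := (Submodule.mem_map.1 (z : Z).2)
        have h4 : (z : Z).1.1 = 0 := LinearMap.mem_ker.1 z.2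
        refine ⟨m, ⟨hm, ?_⟩, ?_⟩
        · have := congrArg Prod.fst hm2
          rw [h4] at this
          exact LinearMap.mem_ker.2 this
        · have := congrArg Prod.snd hm2
          exact this
      · rintro ⟨m, ⟨hm, hm1⟩, rfl⟩
        refine ⟨⟨⟨(f.prod g) m, Submodule.mem_map_of_mem hm⟩, ?_⟩, rfl⟩
        exact LinearMap.mem_ker.1 hm1
    rw [← hr]
    exact (LinearMap.finrank_range_of_inj hq).symm
  rw [h2, h3] at h1
  exact h1.symm

theorem rank_pair_comm (f : M →ₗ[L] A) (g : M →ₗ[L] B) (I : Submodule L M) :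
    finrank L (I.map f) + finrank L ((I ⊓ LinearMap.ker f).map g) =
      finrank L (I.map g) + finrank L ((I ⊓ LinearMap.ker g).map f) := by
  rw [← rank_pair, ← rank_pair]
  have h : I.map (g.prod f) = (I.map (f.prod g)).map (LinearEquiv.prodComm L A B).toLinearMap := by
    rw [← Submodule.map_comp]
    congr 1
  rw [h]
  exact (LinearEquiv.finrank_map_eq (LinearEquiv.prodComm L A B) (I.map (f.prod g))).symm

/-- a map which kills more has a smaller rank -/
theorem rank_le (f : M →ₗ[L] A) (g : M →ₗ[L] B) (I : Submodule L M)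
    (h : ∀ m ∈ I, f m = 0 → g m = 0) : finrank L (I.map g) ≤ finrank L (I.map f) := by
  have h1 := rank_pair_comm f g I
  have h2 : (I ⊓ LinearMap.ker f).map g = ⊥ := by
    rw [Submodule.eq_bot_iff]
    rintro _ ⟨m, ⟨hm, hm1⟩, rfl⟩
    exact h m hm (LinearMap.mem_ker.1 hm1)
  rw [h2, finrank_bot] at h1
  omega

/-- in case of equality the kernels are equal -/
theorem ker_of_rank (f : M →ₗ[L] A) (g : M →ₗ[L] B) (I : Submodule L M)
    (h : ∀ m ∈ I, f m = 0 → g m = 0) (hr : finrank L (I.map f) ≤ finrank L (I.map g)) :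
    ∀ m ∈ I, g m = 0 → f m = 0 := by
  have h1 := rank_pair_comm f g I
  have h2 : (I ⊓ LinearMap.ker f).map g = ⊥ := by
    rw [Submodule.eq_bot_iff]
    rintro _ ⟨m, ⟨hm, hm1⟩, rfl⟩
    exact h m hm (LinearMap.mem_ker.1 hm1)
  rw [h2, finrank_bot] at h1
  have h3 : finrank L ((I ⊓ LinearMap.ker g).map f) = 0 := by omega
  rw [Submodule.finrank_eq_zero] at h3
  intro m hm hg
  have h4 : f m ∈ (I ⊓ LinearMap.ker g).map f :=
    Submodule.mem_map_of_mem ⟨hm, LinearMap.mem_ker.2 hg⟩
  rw [h3] at h4
  exact (Submodule.mem_bot L).1 h4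

theorem zero_of_rank (f : M →ₗ[L] A) (I : Submodule L M) (h : finrank L (I.map f) = 0) :
    ∀ m ∈ I, f m = 0 := by
  rw [Submodule.finrank_eq_zero] at h
  intro m hm
  have h4 : f m ∈ I.map f := Submodule.mem_map_of_mem hm
  rw [h] at h4
  exact (Submodule.mem_bot L).1 h4

omit [FiniteDimensional L A] in
theorem finrank_span_one (v : A) : finrank L (Submodule.span L {v}) ≤ 1 := by
  classical
  have h := finrank_span_finset_le_card (R := L) ({v} : Finset A)
  rw [Finset.coe_singleton, Finset.card_singleton] at h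
  exact h

/-- the rank of a family of maps, all with large range -/
theorem rank_pi {b : ℕ} (g : M →ₗ[L] (Fin b → B)) (I : Submodule L M) (R : Submodule L B)
    (h : ∀ r : Fin b → B, (∀ i, r i ∈ R) → r ∈ I.map g) :
    b * finrank L R ≤ finrank L (I.map g) := by
  let φ : (Fin b → R) →ₗ[L] I.map g :=
    { toFun := fun r => ⟨fun i => (r i : B), h _ fun i => (r i).2⟩
      map_add' := fun r s => rfl
      map_smul' := fun a r => rfl }
  have h1 : Function.Injective φ := by
    intro r s hrs
    funext i
    apply Subtype.ext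
    exact congrFun (congrArg Subtype.val hrs) i
  have h2 := LinearMap.finrank_le_finrank_of_injective h1
  rw [Module.finrank_pi_fintype] at h2
  simpa using h2

end

end Pool.Agent.T2.H65
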