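import Pool.Agent.Lib.MP_c7af3c_ag.T2.H65.Nab
import Pool.Agent.Lib.MP_c7af3c_ag.T2.H65.Lin

/-!
# MP_c7af3c_ag, project T2: counts (helper65)

`N` is a set of monomials; if the coefficients of `F(sum X_i P_i)` in `N` are zero then the
differential `Jc` of these conditions is onto; it kills the `(delta P_i)` for the derivations
`delta` which kill the coefficients of `F`.
-/

set_option autoImplicit false

namespace Pool.Agent.T2.H65

open MvPolynomial Pool.Agent.Gen Pool.Agent.Sharp.H75 Module

section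

variable {L : Type} [Field L] {n r : ℕ}

/-- the differential of the coefficients in `N` of `F(sum X_i P_i)` -/
noncomputable def Jc (F : MvPolynomial (Fin (n + 1)) L) (P : Fin r → Fin (n + 1) → L)
    (N : Finset (Fin r →₀ ℕ)) : (Fin r → Fin (n + 1) → L) →ₗ[L] (N → L) where
  toFun ξ := fun I => coeff I.1 (∑ i, X i * rst P (dv (ξ i) F))
  map_add' ξ ζ := by
    funext I
    rw [Pi.add_apply, ← coeff_add, ← Finset.sum_add_distrib]
    congr 1
    refine Finset.sum_congr rfl fun i _ => ?_
    rw [Pi.add_apply, dv_add, map_add, mul_add]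
  map_smul' a ξ := by
    funext I
    rw [Pi.smul_apply, RingHom.id_apply, ← coeff_smul, Finset.smul_sum]
    congr 1
    refine Finset.sum_congr rfl fun i _ => ?_
    rw [Pi.smul_apply, dv_smul, rst_smul, mul_smul_comm]

theorem Jc_apply (F : MvPolynomial (Fin (n + 1)) L) (P : Fin r → Fin (n + 1) → L)
    (N : Finset (Fin r →₀ ℕ)) (ξ : Fin r → Fin (n + 1) → L) (I : N) :
    Jc F P N ξ I = coeff I.1 (∑ i, X i * rst P (dv (ξ i) F)) := rfl

/-- derivations -/
theorem Jc_der (F : MvPolynomial (Fin (n + 1)) L) (P : Fin r → Fin (n + 1) → L)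
    (N : Finset (Fin r →₀ ℕ)) (h0 : ∀ I ∈ N, coeff I (rst P F) = 0) (δ : Derivation ℤ L L)
    (I : N) : Jc F P N (fun i p => δ (P i p)) I = - coeff I.1 (rst P (dco δ F)) := by
  have h1 := dco_rst P δ F
  have h2 := congrArg (coeff I.1) h1
  rw [coeff_dco, h0 I.1 I.2, map_zero, coeff_add] at h2
  rw [Jc_apply]
  linear_combination -h2

/-- derivations over the field of the coefficients -/
theorem Jc_der_zero (F : MvPolynomial (Fin (n + 1)) L) (P : Fin r → Fin (n + 1) → L)
    (N : Finset (Fin r →₀ ℕ)) (h0 : ∀ I ∈ N, coeff I (rst P F) = 0) (δ : Derivation ℤ L L)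
    (hδ : ∀ I, δ (coeff I F) = 0) : Jc F P N (fun i p => δ (P i p)) = 0 := by
  funext I
  rw [Jc_der F P N h0]
  have : dco δ F = 0 := by
    ext J
    rw [coeff_dco, hδ, coeff_zero]
  rw [this, map_zero, coeff_zero, neg_zero, Pi.zero_apply]

variable {d : Fin 1 → ℕ} (D : DSys L n 1 d)

/-- the derivations `D_G` -/
theorem Jc_V (P : Fin r → Fin (n + 1) → L) (N : Finset (Fin r →₀ ℕ))
    (h0 : ∀ I ∈ N, coeff I (rst P (D.F 0)) = 0) {G : MvPolynomial (Fin (n + 1)) L}
    (hG : G.IsHomogeneous (d 0)) (I : N) :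
    Jc (D.F 0) P N (fun i => D.V (P i) 0 G) I = - coeff I.1 (rst P G) := by
  have h2 : Sharp.H75.Hom d (fun _ : Fin 1 => G) := fun m => by
    rw [Subsingleton.elim m 0]; exact hG
  have h3 := Jc_der (D.F 0) P N h0 (DG D fun _ => G) I
  rw [dco_F D h2 0] at h3
  have e : (fun i => D.V (P i) 0 G) = fun i p => DG D (fun _ => G) (P i p) := by
    funext i p
    rw [← VT_apply, VT_eq, Fin.sum_univ_one]
  rw [e]
  exact h3

/-- the differential is onto -/
theorem Jc_surj {P : Fin r → Fin (n + 1) → L} (hP : LinearIndependent L P)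
    (N : Finset (Fin r →₀ ℕ)) (hN : ∀ I ∈ N, I.degree = d 0)
    (h0 : ∀ I ∈ N, coeff I (rst P (D.F 0)) = 0) : Function.Surjective (Jc (D.F 0) P N) := by
  classical
  intro y
  have hom : (∑ I ∈ N.attach, monomial I.1 (-(y I)) : MvPolynomial (Fin r) L).IsHomogeneous
      (d 0) := by
    refine IsHomogeneous.sum _ _ _ fun I _ => ?_
    exact isHomogeneous_monomial _ (hN I.1 I.2)
  obtain ⟨G, hG, hGr⟩ := rst_surj P hP hom
  refine ⟨fun i => D.V (P i) 0 G, ?_⟩
  funext I
  rw [Jc_V D P N h0 hG I, hGr, coeff_sum]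
  rw [Finset.sum_eq_single I]
  · rw [coeff_monomial, if_pos rfl, neg_neg]
  · intro J _ hJ
    rw [coeff_monomial, if_neg]
    intro h
    exact hJ (Subtype.ext h)
  · intro h
    exact absurd (Finset.mem_attach N I) h

/-- the dimension of the kernel -/
theorem finrank_ker_Jc {P : Fin r → Fin (n + 1) → L} (hP : LinearIndependent L P)
    (N : Finset (Fin r →₀ ℕ)) (hN : ∀ I ∈ N, I.degree = d 0)
    (h0 : ∀ I ∈ N, coeff I (rst P (D.F 0)) = 0) :
    finrank L (LinearMap.ker (Jc (D.F 0) P N)) + N.card = r * (n + 1) := by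
  have h1 := (Jc (D.F 0) P N).finrank_range_add_finrank_ker
  rw [LinearMap.range_eq_top.2 (Jc_surj D hP N hN h0), finrank_top, Module.finrank_fintype_fun_eq_card,
    Fintype.card_coe] at h1
  have h2 : finrank L (Fin r → Fin (n + 1) → L) = r * (n + 1) := by
    rw [Module.finrank_pi_fintype]
    simp
  omega

/-- the direction `P i` in the place `i` -/
theorem Jc_self (F : MvPolynomial (Fin (n + 1)) L) (P : Fin r → Fin (n + 1) → L)
    (N : Finset (Fin r →₀ ℕ)) (i j : Fin r)
    (h : ∀ I ∈ N, coeff I (X i * pderiv j (rst P F)) = 0) :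
    Jc F P N (Pi.single i (P j)) = 0 := by
  classical
  funext I
  rw [Jc_apply, Finset.sum_eq_single i]
  · rw [Pi.single_eq_same, ← pderiv_rst, h I.1 I.2, Pi.zero_apply]
  · intro k _ hk
    rw [Pi.single_eq_of_ne hk, dv_zero, map_zero, mul_zero]
  · intro hi
    exact absurd (Finset.mem_univ _) hi

/-- the coefficients of `X_i dF/dX_i` -/
theorem coeff_X_mul_pderiv {σ : Type} (i : σ) (f : MvPolynomial σ L) (I : σ →₀ ℕ) :
    coeff I (X i * pderiv i f) = (I i : L) * coeff I f := by
  classical
  induction f using MvPolynomial.induction_on' with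
  | monomial J a =>
    rw [pderiv_monomial, X, monomial_mul, coeff_monomial, coeff_monomial]
    by_cases hJ : J i = 0
    · rw [hJ]
      simp only [Nat.cast_zero, mul_zero, ite_self]
      split_ifs with h
      · subst h; rw [hJ]; simp
      · simp
    · have h1 : (Finsupp.single i 1 + (J - Finsupp.single i 1) : σ →₀ ℕ) = J := by
        rw [add_comm]
        refine tsub_add_cancel_of_le ?_
        rw [Finsupp.single_le_iff]
        omega
      rw [h1]
      split_ifs with h
      · subst h; ring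
      · ring
  | add p q hp hq => rw [map_add, mul_add, coeff_add, hp, hq, coeff_add, mul_add]

theorem Jc_self' (F : MvPolynomial (Fin (n + 1)) L) (P : Fin r → Fin (n + 1) → L)
    (N : Finset (Fin r →₀ ℕ)) (h0 : ∀ I ∈ N, coeff I (rst P F) = 0) (i : Fin r) :
    Jc F P N (Pi.single i (P i)) = 0 := by
  refine Jc_self F P N i i fun I hI => ?_
  rw [coeff_X_mul_pderiv, h0 I hI, mul_zero]

/-- Equality in the count: if the number of conditions is `r n` then a derivation which kills the
coefficients of `F` moves every `P i` by a multiple of itself. -/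
theorem cnt_eq {P : Fin r → Fin (n + 1) → L} (hP : LinearIndependent L P)
    (N : Finset (Fin r →₀ ℕ)) (hN : ∀ I ∈ N, I.degree = d 0)
    (h0 : ∀ I ∈ N, coeff I (rst P (D.F 0)) = 0) (hc : r * n ≤ N.card) (δ : Derivation ℤ L L)
    (hδ : ∀ I, δ (coeff I (D.F 0)) = 0) (i : Fin r) :
    (fun p => δ (P i p)) ∈ Submodule.span L {P i} := by
  classical
  set K := LinearMap.ker (Jc (D.F 0) P N) with hK
  have h1 := finrank_ker_Jc D hP N hN h0
  rw [← hK] at h1
  have h2 : finrank L K ≤ r := by
    have : r * (n + 1) = r * n + r := by ring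
    omega
  have h3 : ∀ i, (Pi.single i (P i) : Fin r → Fin (n + 1) → L) ∈ K := fun i =>
    LinearMap.mem_ker.2 (Jc_self' (D.F 0) P N h0 i)
  let w : Fin r → K := fun i => ⟨Pi.single i (P i), h3 i⟩
  have hw : ∀ k, (w k : Fin r → Fin (n + 1) → L) = Pi.single k (P k) := fun _ => rfl
  have h4 : LinearIndependent L w := by
    have h5 : LinearIndependent L (fun i => (w i : Fin r → Fin (n + 1) → L)) := by
      rw [Fintype.linearIndependent_iff]
      intro g hg i
      have h6 := congrFun hg i
      simp only [hw] at h6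
      rw [Finset.sum_apply, Finset.sum_eq_single i] at h6
      · rw [Pi.smul_apply, Pi.single_eq_same, Pi.zero_apply] at h6
        rcases smul_eq_zero.1 h6 with h7 | h7
        · exact h7
        · exact absurd h7 (hP.ne_zero i)
      · intro k _ hk
        rw [Pi.smul_apply, Pi.single_eq_of_ne (Ne.symm hk), smul_zero]
      · intro hi
        exact absurd (Finset.mem_univ _) hi
    exact LinearIndependent.of_comp K.subtype h5
  have h5 : Submodule.span L (Set.range w) = ⊤ := by
    refine h4.span_eq_top_of_card_eq_finrank' ?_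
    have h6 := h4.fintype_card_le_finrank
    rw [Fintype.card_fin] at h6 ⊢
    omega
  have h6 : (fun i p => δ (P i p)) ∈ K := LinearMap.mem_ker.2 (Jc_der_zero (D.F 0) P N h0 δ hδ)
  have h7 : (⟨_, h6⟩ : K) ∈ Submodule.span L (Set.range w) := by rw [h5]; trivial
  obtain ⟨g, hg⟩ := (Submodule.mem_span_range_iff_exists_fun L).1 h7
  have h8 := congrFun (congrArg Subtype.val hg) i
  rw [Submodule.mem_span_singleton]
  refine ⟨g i, ?_⟩
  have h9 : (∑ k, g k • w k : K).1 i = g i • P i := by
    rw [AddSubmonoidClass.coe_finsetSum, Finset.sum_apply, Finset.sum_eq_single i]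
    · change (g i • (Pi.single i (P i) : Fin r → Fin (n + 1) → L)) i = _
      rw [Pi.smul_apply, Pi.single_eq_same]
    · intro k _ hk
      change (g k • (Pi.single k (P k) : Fin r → Fin (n + 1) → L)) i = _
      rw [Pi.smul_apply, Pi.single_eq_of_ne (Ne.symm hk), smul_zero]
    · intro hi
      exact absurd (Finset.mem_univ _) hi
  rw [← h9]
  exact h8

end

end Pool.Agent.T2.H65
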