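import Pool.Agent.Lib.MP_c7af3c_ag.T2.H65.LineE
import Pool.Agent.Lib.MP_c7af3c_ag.T2.H95.Der
import Pool.Agent.Lib.MP_c7af3c_ag.T2.Sizes

/-!
# MP_c7af3c_ag, project T2: module LINE (helper65)

In the situation `Sit` (sextic in five variables) the `W_x` and the `V_x(G)`, `G` zero on a line
through `x`, are not contained in a space `<x, kappa>`: `dim E1(x,y) >= 3` for every line.
-/

set_option autoImplicit false

namespace Pool.Agent.T2.H65

open MvPolynomial Pool.Agent.Gen Pool.Agent.Sharp.H75 Module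

/-! ### restriction to a line: two languages -/

section lineP

variable {L : Type} [Field L] {n : ℕ} (x y : Fin (n + 1) → L)

theorem lineP_rst (G : MvPolynomial (Fin (n + 1)) L) :
    Sharp.lineP G x y = aeval (![1, Polynomial.X] : Fin 2 → Polynomial L) (rst ![x, y] G) := by
  have h : (aeval (![1, Polynomial.X] : Fin 2 → Polynomial L) :
      MvPolynomial (Fin 2) L →ₐ[L] Polynomial L).comp (rst ![x, y]) =
      aeval (fun p => Polynomial.C (x p) + Polynomial.X * Polynomial.C (y p)) := by
    apply MvPolynomial.algHom_ext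
    intro p
    rw [AlgHom.comp_apply, rst_X, Fin.sum_univ_two, aeval_X]
    simp only [map_add, map_mul, aeval_X, aeval_C, Polynomial.algebraMap_eq, Matrix.cons_val_zero,
      Matrix.cons_val_one]
    ring
  exact (AlgHom.congr_fun h G).symm

theorem lineP_of_rst {G : MvPolynomial (Fin (n + 1)) L} (h : rst ![x, y] G = 0) :
    Sharp.lineP G x y = 0 := by
  rw [lineP_rst, h, map_zero]

theorem rst_of_lineP {G : MvPolynomial (Fin (n + 1)) L} {m : ℕ} (hG : G.IsHomogeneous m)
    (h : Sharp.lineP G x y = 0) : rst ![x, y] G = 0 := by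
  classical
  rw [lineP_rst] at h
  have hq := rst_hom ![x, y] hG
  set q := rst ![x, y] G with hqd
  ext J
  rw [coeff_zero]
  by_contra hne
  have hJ := degree_of_hom hq hne
  rw [Finsupp.degree_eq_sum, Fin.sum_univ_two] at hJ
  have h1 : (aeval (![1, Polynomial.X] : Fin 2 → Polynomial L) q).coeff (J 1) = coeff J q := by
    conv_lhs => rw [q.as_sum]
    rw [map_sum, Polynomial.finsetSum_coeff, Finset.sum_eq_single J]
    · rw [aeval_monomial, Finsupp.prod_fintype _ _ (fun i => pow_zero _), Fin.prod_univ_two]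
      simp
    · intro K hK hKJ
      rw [aeval_monomial, Finsupp.prod_fintype _ _ (fun i => pow_zero _), Fin.prod_univ_two]
      have hK0 := degree_of_hom hq (mem_support_iff.1 hK)
      rw [Finsupp.degree_eq_sum, Fin.sum_univ_two] at hK0
      have hK1 : J 1 ≠ K 1 := by
        intro h1
        apply hKJ
        rw [eq_m2 K, eq_m2 J, m2_inj]
        omega
      simp [Polynomial.coeff_X_pow, hK1]
    · intro h1
      exact absurd (mem_support_iff.2 hne) h1
  rw [h, Polynomial.coeff_zero] at h1
  exact hne h1.symm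

end lineP

section

variable {L : Type} [Field L] {n : ℕ} {d : Fin 1 → ℕ} (D : DSys L n 1 d)
  {x y : Fin (n + 1) → L}

theorem VT_one (z : Fin (n + 1) → L) (G : Fin 1 → MvPolynomial (Fin (n + 1)) L) :
    Sharp.VT D z G = D.V z 0 (G 0) := by
  rw [Sharp.VT_apply, Fin.sum_univ_one]

theorem WT_nv (z : Fin (n + 1) → L) (p q : Fin (n + 1)) :
    Sharp.WT D z p q = nv D z (0, ten (_root_.Pi.single q 1) (_root_.Pi.single p 1)) := by
  classical
  rw [nv_E, mvL_ten, af_ten]
  unfold Sharp.WT
  rw [VT_one]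
  have h1 : (lf (_root_.Pi.single q 1) : MvPolynomial (Fin (n + 1)) L) = X q := by
    unfold lf
    rw [Finset.sum_eq_single q]
    · rw [_root_.Pi.single_eq_same, C_1, one_mul]
    · intro r _ hr
      rw [_root_.Pi.single_eq_of_ne hr, C_0, zero_mul]
    · intro h; exact absurd (Finset.mem_univ _) h
  have h2 : dv (_root_.Pi.single p 1) (D.F 0) = pderiv p (D.F 0) := by
    rw [dv_eq, Finset.sum_eq_single p]
    · rw [_root_.Pi.single_eq_same, C_1, one_mul]
    · intro r _ hr
      rw [_root_.Pi.single_eq_of_ne hr, C_0, zero_mul]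
    · intro h; exact absurd (Finset.mem_univ _) h
  have h3 : dt (_root_.Pi.single q (1 : L)) z = z q := by
    unfold dt
    rw [Finset.sum_eq_single q]
    · rw [_root_.Pi.single_eq_same, one_mul]
    · intro r _ hr
      rw [_root_.Pi.single_eq_of_ne hr, zero_mul]
    · intro h; exact absurd (Finset.mem_univ _) h
  rw [h1, h2, h3]
  exact add_comm _ _

theorem E_sum (E : Fin (n + 1) → Fin (n + 1) → L) :
    ((0, E) : GE L n) = ∑ p, ∑ q, E p q • (0, ten (_root_.Pi.single q 1) (_root_.Pi.single p 1)) := by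
  classical
  apply Prod.ext
  · simp only [Prod.fst_sum, Prod.smul_fst, smul_zero, Finset.sum_const_zero]
  · simp only [Prod.snd_sum, Prod.smul_snd]
    funext a b
    simp only [Finset.sum_apply, _root_.Pi.smul_apply, smul_eq_mul, ten]
    rw [Finset.sum_eq_single a]
    · rw [Finset.sum_eq_single b]
      · simp
      · intro q _ hq
        simp [hq]
      · intro h; exact absurd (Finset.mem_univ _) h
    · intro p _ hp
      refine Finset.sum_eq_zero fun q _ => ?_
      simp [hp]
    · intro h; exact absurd (Finset.mem_univ _) h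

theorem nv_E_mem {S : Submodule L (Fin (n + 1) → L)} {z : Fin (n + 1) → L}
    (h : ∀ p q, Sharp.WT D z p q ∈ S) (E : Fin (n + 1) → Fin (n + 1) → L) :
    nv D z (0, E) ∈ S := by
  rw [E_sum, map_sum]
  refine Submodule.sum_mem _ fun p _ => ?_
  rw [map_sum]
  refine Submodule.sum_mem _ fun q _ => ?_
  rw [map_smul, ← WT_nv]
  exact S.smul_mem _ (h p q)

/-- the rank of the variation of the line -/
theorem rank_of_SL (h : 6 ≤ finrank L (Lines.SL D x y)) :
    2 ≤ finrank L ((IP ![x, y] (d 0)).map (ff D x y)) := by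
  classical
  let q : (Fin 2 × Fin (n + 1) → L) →ₗ[L] ((Fin (n + 1) → L) ⧸ Submodule.span L {x}) ×
      ((Fin (n + 1) → L) ⧸ Submodule.span L (Set.range ![x, y])) :=
    ((Submodule.span L {x}).mkQ.comp (LinearMap.funLeft L L fun p => ((0 : Fin 2), p))).prod
      ((Submodule.span L (Set.range ![x, y])).mkQ.comp
        (LinearMap.funLeft L L fun p => ((1 : Fin 2), p)))
  have hq : ∀ w, q w = ((Submodule.span L {x}).mkQ fun p => w (0, p),
    (Submodule.span L (Set.range ![x, y])).mkQ fun p => w (1, p)) := fun w => rfl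
  set S := Lines.SL D x y with hS
  have hrc := rank_pair_comm (LinearMap.id : (Fin 2 × Fin (n + 1) → L) →ₗ[L] _) q S
  have e1 : (S ⊓ LinearMap.ker (LinearMap.id : (Fin 2 × Fin (n + 1) → L) →ₗ[L] _)).map q = ⊥ := by
    rw [LinearMap.ker_id, inf_bot_eq, Submodule.map_bot]
  rw [e1, finrank_bot, Submodule.map_id, Submodule.map_id] at hrc
  -- the kernel
  have hker : finrank L (S ⊓ LinearMap.ker q : Submodule L (Fin 2 × Fin (n + 1) → L)) ≤ 3 := by
    let w : Fin 3 → (Fin 2 × Fin (n + 1) → L) :=
      ![Lines.PP x y (0, 0), Lines.PP x y (1, 0), Lines.PP x y (1, 1)]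
    have hle : (S ⊓ LinearMap.ker q : Submodule L (Fin 2 × Fin (n + 1) → L)) ≤
        Submodule.span L (Set.range w) := by
      rintro v ⟨_, hv⟩
      have hv0 := LinearMap.mem_ker.1 hv
      rw [hq, Prod.mk_eq_zero, Submodule.mkQ_apply, Submodule.mkQ_apply,
        Submodule.Quotient.mk_eq_zero, Submodule.Quotient.mk_eq_zero] at hv0
      obtain ⟨⟨a, ha⟩, hv1⟩ := And.imp_left (Submodule.mem_span_singleton.1) hv0
      have hr : Set.range ![x, y] = {x, y} := by
        rw [Matrix.range_cons, Matrix.range_cons, Matrix.range_empty, Set.union_empty,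
          Set.singleton_union]
      rw [hr, Submodule.mem_span_pair] at hv1
      obtain ⟨b, c, hbc⟩ := hv1
      have hvw : v = a • w 0 + b • w 1 + c • w 2 := by
        funext ⟨i, p⟩
        have ha' := congrFun ha p
        have hb' := congrFun hbc p
        fin_cases i
        · simp [w, Lines.PP]
          simpa using ha'.symm
        · simp [w, Lines.PP]
          simpa using hb'.symm
      rw [hvw]
      exact Submodule.add_mem _ (Submodule.add_mem _
        (Submodule.smul_mem _ _ (Submodule.subset_span ⟨0, rfl⟩))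
        (Submodule.smul_mem _ _ (Submodule.subset_span ⟨1, rfl⟩)))
        (Submodule.smul_mem _ _ (Submodule.subset_span ⟨2, rfl⟩))
    refine le_trans (Submodule.finrank_mono hle) ?_
    have := finrank_range_le_card (R := L) w
    rwa [Fintype.card_fin, Set.finrank] at this
  -- the image
  have him : S.map q ≤ (IP ![x, y] (d 0)).map (ff D x y) ⊔
      Submodule.span L {q (Lines.PP x y (0, 1))} := by
    rw [hS, Lines.SL, Submodule.map_span, Submodule.span_le]
    rintro _ ⟨v, hv, rfl⟩
    rcases hv with (⟨⟨i, j⟩, rfl⟩ | ⟨p, r, rfl⟩) | ⟨G, hG, hG0, rfl⟩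
    · by_cases h1 : i = 0 ∧ j = 1
      · rw [h1.1, h1.2]
        exact Submodule.mem_sup_right (Submodule.mem_span_singleton_self _)
      · have : q (Lines.PP x y (i, j)) = 0 := by
          rw [hq, Prod.mk_eq_zero, Submodule.mkQ_apply, Submodule.mkQ_apply,
            Submodule.Quotient.mk_eq_zero, Submodule.Quotient.mk_eq_zero]
          have z : ∀ (a b k : Fin 2), k ≠ a → (fun p => Lines.PP x y (a, b) (k, p)) = 0 := by
            intro a b k hk
            funext p
            simp [Lines.PP, hk]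
          have hx : ∀ a : Fin 2, (fun p => Lines.PP x y (a, 0) (a, p)) = x := by
            intro a; funext p; simp [Lines.PP]
          have hy : ∀ a : Fin 2, (fun p => Lines.PP x y (a, 1) (a, p)) = y := by
            intro a; funext p; simp [Lines.PP]
          fin_cases i <;> fin_cases j
          · change (fun p => Lines.PP x y (0, 0) (0, p)) ∈ _ ∧
              (fun p => Lines.PP x y (0, 0) (1, p)) ∈ _
            rw [hx, z 0 0 1 (by decide)]
            exact ⟨Submodule.mem_span_singleton_self x, Submodule.zero_mem _⟩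
          · exact absurd ⟨rfl, rfl⟩ h1
          · change (fun p => Lines.PP x y (1, 0) (0, p)) ∈ _ ∧
              (fun p => Lines.PP x y (1, 0) (1, p)) ∈ _
            rw [hx, z 1 0 0 (by decide)]
            exact ⟨Submodule.zero_mem _, x_mem2⟩
          · change (fun p => Lines.PP x y (1, 1) (0, p)) ∈ _ ∧
              (fun p => Lines.PP x y (1, 1) (1, p)) ∈ _
            rw [hy, z 1 1 0 (by decide)]
            exact ⟨Submodule.zero_mem _, y_mem2⟩
        rw [this]
        exact Submodule.zero_mem _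
    · refine Submodule.mem_sup_left (Submodule.mem_map.2
        ⟨(0, ten (_root_.Pi.single r 1) (_root_.Pi.single p 1)), ?_, ?_⟩)
      · exact mem_IP.2 ⟨isHomogeneous_zero _ _ _, map_zero _⟩
      · rw [hq]
        have e2 : (fun s => Lines.WW D x y p r (0, s)) = Sharp.WT D x p r := by
          funext s; simp [Lines.WW, Lines.pr]
        have e3 : (fun s => Lines.WW D x y p r (1, s)) = Sharp.WT D y p r := by
          funext s; simp [Lines.WW, Lines.pr]
        rw [e2, e3, WT_nv, WT_nv]
        rfl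
    · refine Submodule.mem_sup_left (Submodule.mem_map.2 ⟨(G 0, 0), ?_, ?_⟩)
      · exact mem_IP.2 ⟨hG 0, rst_of_lineP x y (hG 0) (hG0 0)⟩
      · rw [hq]
        have e2 : (fun s => Lines.VV D x y G (0, s)) = D.V x 0 (G 0) := by
          rw [← VT_one]
          funext s; simp [Lines.VV, Lines.pr]
        have e3 : (fun s => Lines.VV D x y G (1, s)) = D.V y 0 (G 0) := by
          rw [← VT_one]
          funext s; simp [Lines.VV, Lines.pr]
        rw [e2, e3, ← nv_zero_right, ← nv_zero_right]
        rfl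
  have h5 := Submodule.finrank_mono him
  have h6 := Submodule.finrank_add_le_finrank_add_finrank ((IP ![x, y] (d 0)).map (ff D x y))
    (Submodule.span L {q (Lines.PP x y (0, 1))})
  have h7 := finrank_span_one (L := L) (q (Lines.PP x y (0, 1)))
  omega

end

/-! ### the module -/

section

variable {Ω : Type} [Field Ω] [CharZero Ω] {k : Subfield Ω} {Γ : Type}
  [LinearOrderedCommGroupWithZero Γ] {S : Sizes Ω k Γ} {d : Fin 1 → ℕ} {D : DSys Ω 4 1 d}
  {x : Fin (4 + 1) → Ω} {j0 : Fin (4 + 1)}

theorem line (hd : d 0 = 6) (h : Sit S D x j0) {y : Fin (4 + 1) → Ω}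
    (hxy : LinearIndependent Ω ![x, y]) (κ : Fin (4 + 1) → Ω)
    (hW : ∀ p q, Sharp.WT D x p q ∈ Submodule.span Ω {x, κ})
    (hV : ∀ G : MvPolynomial (Fin (4 + 1)) Ω, G.IsHomogeneous 6 → Sharp.lineP G x y = 0 →
      D.V x 0 G ∈ Submodule.span Ω {x, κ}) : False := by
  classical
  have hF : (D.F 0).IsHomogeneous 6 := by have := D.hom 0; rwa [hd] at this
  set U := Submodule.span Ω {x, κ} with hU
  have hUr : finrank Ω U ≤ 2 := by
    have h1 : ({x, κ} : Set (Fin (4 + 1) → Ω)) = Set.range ![x, κ] := by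
      rw [Matrix.range_cons, Matrix.range_cons, Matrix.range_empty, Set.union_empty,
        Set.singleton_union]
    rw [hU, h1]
    exact finrank_span_two
  have hWE : ∀ E : Fin (4 + 1) → Fin (4 + 1) → Ω, nv D x (0, E) ∈ U := nv_E_mem D hW
  obtain ⟨φ, hφ⟩ := rst_dual ![x, y] hxy
  have ha0 : dt (φ 1) x = 0 := by have := hφ 1 0; simpa using this
  have ha1 : dt (φ 1) y = 1 := by have := hφ 1 1; simpa using this
  -- the facts on a line `x z` which is the line `x y`
  have main : ∀ μ : Ω, ∃ e0 : Fin (4 + 1) → Ω,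
      LinearIndependent Ω ![x, y + μ • x] ∧
      (∀ G : MvPolynomial (Fin (4 + 1)) Ω, G.IsHomogeneous 6 → rst ![x, y + μ • x] G = 0 →
        D.V x 0 G ∈ U) ∧
      2 ≤ finrank Ω ((IP ![x, y + μ • x] 6).map (ff D x (y + μ • x))) ∧
      e0 ∉ Submodule.span Ω (Set.range ![x, y + μ • x]) ∧
      finrank Ω ((IP ![x, y + μ • x] 6).map (ff D x (y + μ • x))) ≤ 2 ∧
      (∀ h ∈ IP ![x, y + μ • x] 6, ff D x (y + μ • x) h = 0 ↔
        D.V x 0 (lf (φ 1) * dv e0 h.1) ∈ U) ∧
      (∀ h ∈ IP ![x, y + μ • x] 6, rst ![x, y + μ • x] (dv e0 h.1) = 0 →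
        nv D e0 h ∈ Submodule.span Ω (Set.range ![x, y + μ • x, e0])) ∧
      2 ≤ finrank Ω ((IP ![x, y + μ • x] 6).map (tv D x (φ 1) U e0)) ∧
      ∀ E : Fin (4 + 1) → Fin (4 + 1) → Ω, ff D x (y + μ • x) (0, E) = 0 := by
    intro μ
    have hxy' : LinearIndependent Ω ![x, y + μ • x] := by
      rw [LinearIndependent.pair_iff] at hxy ⊢
      intro s t hst
      have h1 : (s + t * μ) • x + t • y = 0 := by
        rw [← hst, smul_add, add_smul, smul_smul]
        abel
      have h2 := hxy _ _ h1
      refine ⟨?_, h2.2⟩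
      have := h2.1
      rw [h2.2, zero_mul, add_zero] at this
      exact this
    have hsub : ∀ j, ![x, y] j ∈ Submodule.span Ω (Set.range ![x, y + μ • x]) := by
      intro j
      fin_cases j
      · exact x_mem2
      · have h9 := Submodule.sub_mem _ (y_mem2 (x := x) (y := y + μ • x))
          (Submodule.smul_mem _ μ (x_mem2 (x := x) (y := y + μ • x)))
        rw [add_sub_cancel_right] at h9
        exact h9
    have hV' : ∀ G : MvPolynomial (Fin (4 + 1)) Ω, G.IsHomogeneous 6 →
        rst ![x, y + μ • x] G = 0 → D.V x 0 G ∈ U := fun G hG h0 =>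
      hV G hG (lineP_of_rst x y (rst_span hsub h0))
    have ha1' : dt (φ 1) (y + μ • x) = 1 := by
      rw [dt_add, dt_smul, ha0, ha1, mul_zero, add_zero]
    have hR : 2 ≤ finrank Ω (RR D x (φ 1) U 5) := by
      have := finrank_RR D x (φ 1) U h.hj0 hd hxy' ha0 ha1' hWE hV'
      omega
    have hρ : 2 ≤ finrank Ω ((IP ![x, y + μ • x] 6).map (ff D x (y + μ • x))) := by
      have := rank_of_SL D (h.hline _ hxy')
      rwa [hd] at this
    obtain ⟨e0, he0, h2, hN, hM, htv⟩ := exists_e0 (e := 5) D h.comm hd ha0 ha1' hU hWE hV' hR hρ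
    refine ⟨e0, hxy', hV', hρ, he0, h2, hN, hM, htv, fun E => ?_⟩
    rw [hN (0, E) (mem_IP.2 ⟨isHomogeneous_zero _ _ _, map_zero _⟩)]
    change D.V x 0 (lf (φ 1) * dv e0 0) ∈ U
    rw [map_zero, mul_zero, map_zero]
    exact U.zero_mem
  obtain ⟨e0, hxy0, -, -, -, h20, -, -, -, hE0⟩ := main 0
  rw [zero_smul, add_zero] at hxy0 h20 hE0
  have hf0 : rst ![x, y] (D.F 0) ≠ 0 := by
    intro h0
    obtain ⟨m, hm⟩ := h.hno y hxy
    rw [Subsingleton.elim m 0] at hm
    exact hm (lineP_of_rst x y h0)
  obtain ⟨g, hg, hrel⟩ := exists_rel D hd hxy hE0 h20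
  obtain ⟨μ, i, hi, t, ht, hf⟩ := exists_mu D hd hxy hf0 hg hrel
  obtain ⟨e1, hxy1, hV1, hρ1, he1, -, hN1, hM1, htv1, hE1⟩ := main μ
  -- the point `x` is a zero
  have hi0 : i ≠ 0 := by
    intro h0
    rw [h0] at hf
    have h5 : ((eval (![1, 0] : Fin 2 → Ω)).comp
        ((rst ![x, y + μ • x]) : MvPolynomial (Fin (4 + 1)) Ω →+* MvPolynomial (Fin 2) Ω)) =
        eval x := by
      apply MvPolynomial.ringHom_ext
      · intro r
        simp
      · intro i
        simp [rst_X]
    have h6 := congrArg (fun f : MvPolynomial (Fin (4 + 1)) Ω →+* Ω => f (D.F 0)) h5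
    change eval ![1, 0] (rst ![x, y + μ • x] (D.F 0)) = eval x (D.F 0) at h6
    rw [hf, h.h0 0, eval_monomial, Finsupp.prod_fintype _ _ (fun i => pow_zero _),
      Fin.prod_univ_two, m2_0, m2_1] at h6
    simp at h6
    exact ht h6
  rcases Nat.lt_or_ge i 6 with hi6 | hi6
  · obtain ⟨e, he, her⟩ := exists_e D hd hV1 he1 hN1 hM1 htv1 hE1 (i := i) (by omega) (by omega)
      ht hf
    have hxye : LinearIndependent Ω ![x, y + μ • x, e] := by
      have h7 := (linearIndependent_finSnoc (v := ![x, y + μ • x]) (x := e)).2 ⟨hxy1, he⟩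
      have h8 : ![x, y + μ • x, e] = Fin.snoc (α := fun _ => Fin (4 + 1) → Ω)
          ![x, y + μ • x] e := by
        funext j
        fin_cases j <;> rfl
      rw [h8]
      exact h7
    obtain ⟨i1, hi1⟩ := h.xk
    apply hi1
    refine H95.mem_of_der k (fun z hz => ?_) (x i1) fun δ hδ => ?_
    · obtain ⟨p, hp, hpz⟩ := hz
      refine h.kalg z (p.map (algebraMap k Ω)) ?_ ?_ ?_
      · exact (Polynomial.map_ne_zero_iff (algebraMap k Ω).injective).2 hp
      · intro j
        rw [Polynomial.coeff_map]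
        exact (p.coeff j).2
      · rw [Polynomial.eval_map_algebraMap]
        exact hpz
    · have h8 := count2 D hd hxye (by omega) hf her δ fun I => hδ _ (h.kF 0 I)
      obtain ⟨c, hc⟩ := Submodule.mem_span_singleton.1 h8
      have h9 := congrFun hc j0
      rw [_root_.Pi.smul_apply, h.hj0, smul_eq_mul, mul_one] at h9
      have h10 : δ (1 : Ω) = 0 := δ.map_one_eq_zero
      rw [h10] at h9
      have h11 := congrFun hc i1
      rw [h9, zero_smul] at h11
      exact h11.symm
  · have hi' : i = 6 := by omega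
    rw [hi'] at hf
    have := count1 D hd hxy1 hf
    omega

/-- Module LINE. -/
theorem finrank_E1 (hd : d 0 = 6) (h : Sit S D x j0) (y : Fin (4 + 1) → Ω)
    (hxy : LinearIndependent Ω ![x, y]) : 3 ≤ finrank Ω (Lines.E1 D x y) := by
  classical
  by_contra hlt
  have hx : x ∈ Lines.E1 D x y := Submodule.subset_span (Or.inl (Or.inl rfl))
  have hx0 : x ≠ 0 := hxy.ne_zero 0
  obtain ⟨κ, hκ⟩ : ∃ κ, Lines.E1 D x y ≤ Submodule.span Ω {x, κ} := by
    by_cases h1 : Lines.E1 D x y ≤ Submodule.span Ω {x}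
    · exact ⟨x, h1.trans (Submodule.span_mono (by simp))⟩
    · obtain ⟨κ, hκ, hκx⟩ := SetLike.not_le_iff_exists.1 h1
      refine ⟨κ, ?_⟩
      have h2 : Submodule.span Ω {x, κ} ≤ Lines.E1 D x y := by
        rw [Submodule.span_le]
        rintro z (rfl | hz)
        · exact hx
        · rw [Set.mem_singleton_iff] at hz
          rw [hz]
          exact hκ
      have h3 : LinearIndependent Ω ![x, κ] := by
        rw [LinearIndependent.pair_iff' hx0]
        intro a ha
        exact hκx (Submodule.mem_span_singleton.2 ⟨a, ha⟩)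
      have h4 : finrank Ω (Submodule.span Ω ({x, κ} : Set (Fin (4 + 1) → Ω))) = 2 := by
        have h5 : ({x, κ} : Set (Fin (4 + 1) → Ω)) = Set.range ![x, κ] := by
          rw [Matrix.range_cons, Matrix.range_cons, Matrix.range_empty, Set.union_empty,
            Set.singleton_union]
        rw [h5, finrank_span_eq_card h3, Fintype.card_fin]
      exact (Submodule.eq_of_le_of_finrank_le h2 (by omega)).ge
  refine line hd h hxy κ (fun p q => hκ ?_) fun G hG h0 => hκ ?_
  · exact Submodule.subset_span (Or.inl (Or.inr ⟨p, q, rfl⟩))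
  · refine Submodule.subset_span (Or.inr ⟨fun _ => G, fun m => ?_, fun m => h0, ?_⟩)
    · rw [Subsingleton.elim m 0, hd]
      exact hG
    · rw [VT_one]

end

end Pool.Agent.T2.H65
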