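import Pool.Agent.Lib.MP_c7af3c_ag.T2.H65.Cnt

/-!
# MP_c7af3c_ag, project T2: lines with a small variation space, part A (helper65)

`U` contains `x`, the `W_x` and the `V_x(G)`, `G` zero on the line `x y`. `a` is a linear form
with `a(x) = 0`, `a(y) = 1`.
-/

set_option autoImplicit false

namespace Pool.Agent.T2.H65

open MvPolynomial Pool.Agent.Gen Pool.Agent.Sharp.H75 Module

section CB

variable {L : Type} [Field L] {n : ℕ} {d : Fin 1 → ℕ} (D : DSys L n 1 d)
  (x a : Fin (n + 1) → L) (U : Submodule L (Fin (n + 1) → L))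

theorem lfm_hom {B : MvPolynomial (Fin (n + 1)) L} {e : ℕ} (hB : B.IsHomogeneous e) :
    (lf a * B).IsHomogeneous (e + 1) := by
  have h := (lf_hom a).mul hB
  have h1 : 1 + e = e + 1 := add_comm _ _
  exact h1 ▸ h

theorem degree_of_hom {σ : Type} {q : MvPolynomial σ L} {e : ℕ} (hq : q.IsHomogeneous e)
    {J : σ →₀ ℕ} (hJ : coeff J q ≠ 0) : J.degree = e := by
  have := hq hJ
  rw [← this, Finsupp.degree_eq_weight_one]
  rfl

theorem hom_of_degree {σ : Type} {q : MvPolynomial σ L} {e : ℕ}
    (h : ∀ J, coeff J q ≠ 0 → J.degree = e) : q.IsHomogeneous e := by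
  intro J hJ
  have := h J hJ
  rw [← this, Finsupp.degree_eq_weight_one]
  rfl

/-- a binary form which vanishes at the first point is divisible by `X 1` -/
theorem div_X1 {q : MvPolynomial (Fin 2) L} {e : ℕ} (hq : q.IsHomogeneous (e + 1))
    (h0 : eval ![1, 0] q = 0) :
    ∃ q' : MvPolynomial (Fin 2) L, q'.IsHomogeneous e ∧ X 1 * q' = q := by
  classical
  have hdeg : ∀ J, coeff J q ≠ 0 → J 0 + J 1 = e + 1 := by
    intro J hJ
    have := degree_of_hom hq hJ
    rw [Finsupp.degree_eq_sum, Fin.sum_univ_two] at this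
    exact this
  have hz : ∀ J, J 1 = 0 → coeff J q = 0 := by
    intro J hJ
    by_contra hne
    rw [eval_eq'] at h0
    rw [Finset.sum_eq_single J] at h0
    · simp [hJ] at h0
      exact hne h0
    · intro K hK hKJ
      have hK0 := hdeg K (mem_support_iff.1 hK)
      have hJ0 := hdeg J hne
      have hK1 : K 1 ≠ 0 := by
        intro h1
        apply hKJ
        ext i
        fin_cases i
        · simp only [Fin.zero_eta]; omega
        · simp only [Fin.mk_one]; omega
      simp [hK1]
    · intro h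
      exact absurd (mem_support_iff.2 hne) h
  refine ⟨divMonomial q (Finsupp.single 1 1), ?_, ?_⟩
  · refine hom_of_degree fun I hI => ?_
    rw [coeff_divMonomial] at hI
    have h1 := hdeg _ hI
    simp only [Finsupp.degree_eq_sum, Fin.sum_univ_two]
    simp at h1
    omega
  · ext J
    rw [coeff_X_mul']
    split_ifs with h
    · rw [coeff_divMonomial]
      congr 1
      refine add_tsub_cancel_of_le ?_
      rw [Finsupp.single_le_iff]
      have := Finsupp.mem_support_iff.1 h
      omega
    · rw [Finsupp.notMem_support_iff] at h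
      exact (hz J h).symm

/-- `g -> V_x(a (dG/dv))` modulo `U` -/
noncomputable def tv (v : Fin (n + 1) → L) : GE L n →ₗ[L] ((Fin (n + 1) → L) ⧸ U) :=
  U.mkQ.comp ((D.V x 0).comp ((LinearMap.mulLeft L (lf a)).comp
    ((dv v).toLinearMap.comp (LinearMap.fst L _ _))))

theorem tv_apply (v : Fin (n + 1) → L) (g : GE L n) :
    tv D x a U v g = U.mkQ (D.V x 0 (lf a * dv v g.1)) := rfl

theorem tv_zero {v : Fin (n + 1) → L} {g : GE L n} :
    tv D x a U v g = 0 ↔ D.V x 0 (lf a * dv v g.1) ∈ U := by
  rw [tv_apply, Submodule.mkQ_apply, Submodule.Quotient.mk_eq_zero]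

/-- the values `V_x(a B)` modulo `U` -/
noncomputable def RR (e : ℕ) : Submodule L ((Fin (n + 1) → L) ⧸ U) :=
  (homogeneousSubmodule (Fin (n + 1)) L e).map
    (U.mkQ.comp ((D.V x 0).comp (LinearMap.mulLeft L (lf a))))

theorem mem_RR {e : ℕ} {r : (Fin (n + 1) → L) ⧸ U} (h : r ∈ RR D x a U e) :
    ∃ B : MvPolynomial (Fin (n + 1)) L, B.IsHomogeneous e ∧ U.mkQ (D.V x 0 (lf a * B)) = r := by
  obtain ⟨B, hB, h1⟩ := h
  exact ⟨B, hB, h1⟩

/-- the directions `v` for which `V_x(a (dH/dv))` is in `U` for the `h` in `I` with `f h = 0` -/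
def VS {A : Type} [AddCommGroup A] [Module L A] (f : GE L n →ₗ[L] A) (I : Submodule L (GE L n)) :
    Submodule L (Fin (n + 1) → L) where
  carrier := {v | ∀ h ∈ I, f h = 0 → D.V x 0 (lf a * dv v h.1) ∈ U}
  add_mem' := by
    intro u v hu hv h hI hf
    rw [dv_add, mul_add, map_add]
    exact U.add_mem (hu h hI hf) (hv h hI hf)
  zero_mem' := by
    intro h _ _
    rw [dv_zero, mul_zero, map_zero]
    exact U.zero_mem
  smul_mem' := by
    intro c v hv h hI hf
    rw [dv_smul, mul_smul_comm, map_smul]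
    exact U.smul_mem _ (hv h hI hf)

/-- linear forms on a quotient -/
theorem exists_forms (Pi : Submodule L (Fin (n + 1) → L)) {b : ℕ}
    (v : Fin b → Fin (n + 1) → L) (hv : LinearIndependent L fun i => Pi.mkQ (v i)) :
    ∃ u : Fin b → Fin (n + 1) → L, (∀ i, ∀ w ∈ Pi, dt (u i) w = 0) ∧
      ∀ i j, dt (u i) (v j) = if i = j then 1 else 0 := by
  classical
  obtain ⟨g, hg⟩ := LinearMap.exists_leftInverse_of_injective
    (Fintype.linearCombination L fun i => Pi.mkQ (v i))
    (LinearMap.ker_eq_bot.2 (linearIndependent_iff_injective_fintypeLinearCombination.1 hv))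
  have key : ∀ i w, dt (fun q => g (Pi.mkQ (_root_.Pi.single q 1)) i) w = g (Pi.mkQ w) i := by
    intro i w
    have h3 : w = ∑ j, w j • (_root_.Pi.single j 1 : Fin (n + 1) → L) := by
      rw [← pi_eq_sum_univ' w]
    conv_rhs => rw [h3]
    rw [map_sum, map_sum, Finset.sum_apply]
    unfold dt
    refine Finset.sum_congr rfl fun j _ => ?_
    rw [map_smul, map_smul, _root_.Pi.smul_apply, smul_eq_mul, mul_comm]
  refine ⟨fun i q => g (Pi.mkQ (_root_.Pi.single q 1)) i, fun i w hw => ?_, fun i j => ?_⟩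
  · rw [key, Submodule.mkQ_apply, (Submodule.Quotient.mk_eq_zero Pi).2 hw, map_zero,
      _root_.Pi.zero_apply]
  · have h2 := LinearMap.congr_fun hg (_root_.Pi.single j 1)
    rw [LinearMap.comp_apply, LinearMap.id_apply, Fintype.linearCombination_apply_single,
      one_smul] at h2
    rw [key, h2, _root_.Pi.single_apply]

/-- the count for the brackets -/
theorem cb {A : Type} [AddCommGroup A] [Module L A] [FiniteDimensional L A]
    (f : GE L n →ₗ[L] A) (I : Submodule L (GE L n)) (Pi : Submodule L (Fin (n + 1) → L)) (e : ℕ)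
    {r : ℕ} (P : Fin r → Fin (n + 1) → L)
    (hV : ∀ G : MvPolynomial (Fin (n + 1)) L, G.IsHomogeneous (e + 1) → rst P G = 0 →
      D.V x 0 G ∈ U) (hP : ∀ i, P i ∈ Pi)
    (hI : ∀ u : Fin (n + 1) → L, (∀ v ∈ Pi, dt u v = 0) →
      ∀ B : MvPolynomial (Fin (n + 1)) L, B.IsHomogeneous e → ((lf u * B, 0) : GE L n) ∈ I) :
    finrank L ((VS D x a U f I).map Pi.mkQ) * finrank L (RR D x a U e) ≤ finrank L (I.map f) := by
  classical
  set W := (VS D x a U f I).map Pi.mkQ with hW
  set b := finrank L W with hb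
  let bs : Basis (Fin b) L W := Module.finBasis L W
  have h1 : ∀ i, ∃ v ∈ VS D x a U f I, Pi.mkQ v = (bs i : (Fin (n + 1) → L) ⧸ Pi) := fun i =>
    Submodule.mem_map.1 (bs i).2
  choose v hv hvb using h1
  have hli : LinearIndependent L fun i => Pi.mkQ (v i) := by
    simp only [hvb]
    exact bs.linearIndependent.map' W.subtype (Submodule.ker_subtype W)
  obtain ⟨u, hu0, hu1⟩ := exists_forms Pi v hli
  let T : GE L n →ₗ[L] (Fin b → (Fin (n + 1) → L) ⧸ U) := LinearMap.pi fun i => tv D x a U (v i)
  have hT : ∀ g i, T g i = tv D x a U (v i) g := fun _ _ => rfl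
  have h2 : finrank L (I.map T) ≤ finrank L (I.map f) := by
    refine rank_le f T I fun m hm hf => ?_
    funext i
    rw [hT, _root_.Pi.zero_apply, tv_zero]
    exact hv i m hm hf
  refine le_trans (rank_pi T I (RR D x a U e) fun r hr => ?_) h2
  choose B hB hBr using fun i => mem_RR D x a U (hr i)
  refine ⟨∑ i, (lf (u i) * B i, 0), Submodule.sum_mem _ fun i _ => hI _ (hu0 i) _ (hB i), ?_⟩
  funext j
  rw [hT, tv_apply, ← hBr j, ← sub_eq_zero, ← map_sub, ← map_sub, Submodule.mkQ_apply,
    Submodule.Quotient.mk_eq_zero]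
  have hfst : (∑ i, ((lf (u i) * B i, 0) : GE L n)).1 = ∑ i, lf (u i) * B i := by
    rw [Prod.fst_sum]
  rw [hfst]
  have hrst : ∀ i, rst P (lf (u i)) = 0 := by
    intro i
    rw [rst_lf]
    refine Finset.sum_eq_zero fun k _ => ?_
    rw [hu0 i (P k) (hP k), C_0, zero_mul]
  refine hV _ ?_ ?_
  · have h3 : (∑ i, lf (u i) * B i : MvPolynomial (Fin (n + 1)) L).IsHomogeneous (e + 1) := by
      exact IsHomogeneous.sum _ _ _ fun i _ => lfm_hom (u i) (hB i)
    exact (lfm_hom a (dv_hom h3 (v j))).sub (lfm_hom a (hB j))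
  · rw [map_sub, map_mul, map_mul, map_sum, map_sum]
    have h6 : ∀ i, rst P (dv (v j) (lf (u i) * B i)) = if i = j then rst P (B i) else 0 := by
      intro i
      rw [Derivation.leibniz, smul_eq_mul, smul_eq_mul, map_add, map_mul, map_mul, hrst i,
        zero_mul, zero_add, dv_lf, rst_C, hu1]
      split_ifs <;> simp
    simp only [h6]
    rw [Finset.sum_ite_eq' Finset.univ j, if_pos (Finset.mem_univ _), sub_self]

/-- the values `V_x(a B)`: the rank is at least `n - dim U` -/
theorem finrank_RR {y : Fin (n + 1) → L} {j0 : Fin (n + 1)} (hj : x j0 = 1) {e : ℕ}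
    (hd : d 0 = e + 1) (hxy : LinearIndependent L ![x, y]) (ha0 : dt a x = 0) (ha1 : dt a y = 1)
    (hW : ∀ E : Fin (n + 1) → Fin (n + 1) → L, nv D x (0, E) ∈ U)
    (hV : ∀ G : MvPolynomial (Fin (n + 1)) L, G.IsHomogeneous (e + 1) → rst ![x, y] G = 0 →
      D.V x 0 G ∈ U) : n ≤ finrank L (RR D x a U e) + finrank L U := by
  classical
  -- the tangent space
  let φ : (Fin (n + 1) → L) →ₗ[L] L :=
    { toFun := fun v => eval x (dv v (D.F 0))
      map_add' := fun u v => by rw [dv_add, map_add]
      map_smul' := fun c v => by rw [dv_smul, smul_eval, RingHom.id_apply, smul_eq_mul] }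
  have h1 : n ≤ finrank L (LinearMap.ker φ) := by
    have h2 := φ.finrank_range_add_finrank_ker
    have h3 : finrank L (LinearMap.range φ) ≤ 1 := by
      have := Submodule.finrank_le (LinearMap.range φ)
      rwa [Module.finrank_self] at this
    rw [Module.finrank_fintype_fun_eq_card, Fintype.card_fin] at h2
    omega
  have h2 : (LinearMap.ker φ).map U.mkQ ≤ RR D x a U e := by
    rintro _ ⟨v, hv, rfl⟩
    have hv0 : eval x (dv v (D.F 0)) = 0 := LinearMap.mem_ker.1 hv
    -- the matrix
    let E : Fin (n + 1) → Fin (n + 1) → L := fun p q => if q = j0 then v p else 0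
    have hE : ∀ p z, dt (E p) z = v p * z j0 := by
      intro p z
      unfold dt
      simp [E]
    have haf : af E (D.F 0) = X j0 * dv v (D.F 0) := by
      unfold af
      rw [dv_eq, Finset.mul_sum]
      refine Finset.sum_congr rfl fun p _ => ?_
      have : (lf (E p) : MvPolynomial (Fin (n + 1)) L) = C (v p) * X j0 := by
        unfold lf
        rw [Finset.sum_eq_single j0]
        · simp [E]
        · intro q _ hq
          simp [E, hq]
        · intro h; exact absurd (Finset.mem_univ _) h
      rw [this]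
      ring
    have h3 := hW E
    have h4 : nv D x ((0 : MvPolynomial (Fin (n + 1)) L), E) = D.V x 0 (af E (D.F 0)) + v := by
      funext p
      rw [nv_apply, hE, hj, mul_one, Pi.add_apply, nD_apply, GF_apply, zero_add]
    rw [h4] at h3
    -- the form vanishes at `x`
    set H := af E (D.F 0) with hH
    have hHh : H.IsHomogeneous (e + 1) := by
      have := af_hom E (D.hom 0)
      rwa [hd] at this
    have hHx : eval x H = 0 := by
      rw [haf, map_mul, hv0, mul_zero]
    obtain ⟨B, hB, hBr⟩ : ∃ B : MvPolynomial (Fin (n + 1)) L, B.IsHomogeneous e ∧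
        rst ![x, y] (lf a * B) = rst ![x, y] H := by
      -- divide by `X 1`
      have hx0 : eval ![1, 0] (rst ![x, y] H) = 0 := by
        have h5 : ((eval (![1, 0] : Fin 2 → L)).comp
            ((rst ![x, y]) : MvPolynomial (Fin (n + 1)) L →+* MvPolynomial (Fin 2) L)) =
            eval x := by
          apply MvPolynomial.ringHom_ext
          · intro r
            simp
          · intro i
            simp [rst_X]
        have h6 := congrArg (fun f : MvPolynomial (Fin (n + 1)) L →+* L => f H) h5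
        exact h6.trans hHx
      obtain ⟨q', hq', hq1⟩ := div_X1 (rst_hom ![x, y] hHh) hx0
      obtain ⟨B, hB, hBr⟩ := rst_surj ![x, y] hxy hq'
      refine ⟨B, hB, ?_⟩
      rw [map_mul, hBr, ← hq1, rst_lf, Fin.sum_univ_two]
      simp [ha0, ha1]
    have h5 : D.V x 0 (H - lf a * B) ∈ U := by
      refine hV _ ?_ ?_
      · exact hHh.sub (lfm_hom a hB)
      · rw [map_sub, hBr, sub_self]
    refine Submodule.mem_map.2 ⟨-B, ?_, ?_⟩
    · exact Submodule.neg_mem _ hB
    · change U.mkQ (D.V x 0 (lf a * (-B))) = U.mkQ v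
      rw [← sub_eq_zero, ← map_sub, Submodule.mkQ_apply, Submodule.Quotient.mk_eq_zero]
      have h7 := U.sub_mem h5 h3
      have h8 : D.V x 0 (lf a * (-B)) - v = D.V x 0 (H - lf a * B) - (D.V x 0 H + v) := by
        rw [map_sub, mul_neg, map_neg]
        abel
      rw [h8]
      exact h7
  have h3 := Submodule.finrank_mono h2
  have h4 := (U.mkQ.domRestrict (LinearMap.ker φ)).finrank_range_add_finrank_ker
  rw [LinearMap.range_domRestrict] at h4
  have h5 : finrank L (LinearMap.ker (U.mkQ.domRestrict (LinearMap.ker φ))) ≤ finrank L U := by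
    let j : LinearMap.ker (U.mkQ.domRestrict (LinearMap.ker φ)) →ₗ[L] U :=
      { toFun := fun z => ⟨z.1.1, by
          have := LinearMap.mem_ker.1 z.2
          rwa [LinearMap.domRestrict_apply, Submodule.mkQ_apply,
            Submodule.Quotient.mk_eq_zero] at this⟩
        map_add' := fun _ _ => rfl
        map_smul' := fun _ _ => rfl }
    refine LinearMap.finrank_le_finrank_of_injective (f := j) ?_
    intro z w hzw
    apply Subtype.ext
    apply Subtype.ext
    exact congrArg (fun u : U => (u : Fin (n + 1) → L)) hzw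
  omega

end CB

end Pool.Agent.T2.H65
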