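import Pool.Agent.Lib.MP_c7af3c_ag.T2.H65.LineA

/-!
# MP_c7af3c_ag, project T2: lines with a small variation space, part B (helper65)

The brackets: if `V(I_l)` and the `W` are in a space `U = <x, kappa>` then either the variation
space of the line is small or there is a direction `e0` (the plane) such that the pairs which fix
the point and the line are those with `V_x(a dH/de0)` in `U`, and those with `dH/de0 = 0` on the
line fix the plane.
-/

set_option autoImplicit false

namespace Pool.Agent.T2.H65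

open MvPolynomial Pool.Agent.Gen Pool.Agent.Sharp.H75 Module

section

variable {L : Type} [Field L] {n : ℕ} {d : Fin 1 → ℕ} (D : DSys L n 1 d)

/-- pairs with a form of degree `k` which is zero on the space of `P` -/
noncomputable def IP {r : ℕ} (P : Fin r → Fin (n + 1) → L) (k : ℕ) : Submodule L (GE L n) :=
  (homogeneousSubmodule (Fin (n + 1)) L k ⊓ LinearMap.ker (rst P).toLinearMap).comap
    (LinearMap.fst L _ _)

theorem mem_IP {r : ℕ} {P : Fin r → Fin (n + 1) → L} {k : ℕ} {g : GE L n} :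
    g ∈ IP P k ↔ g.1.IsHomogeneous k ∧ rst P g.1 = 0 := Iff.rfl

variable (x y : Fin (n + 1) → L)

/-- the action on the flag of the point and the line -/
noncomputable def ff : GE L n →ₗ[L] ((Fin (n + 1) → L) ⧸ Submodule.span L {x}) ×
    ((Fin (n + 1) → L) ⧸ Submodule.span L (Set.range ![x, y])) :=
  ((Submodule.span L {x}).mkQ.comp (nv D x)).prod
    ((Submodule.span L (Set.range ![x, y])).mkQ.comp (nv D y))

theorem ff_eq_zero {g : GE L n} : ff D x y g = 0 ↔
    nv D x g ∈ Submodule.span L {x} ∧ nv D y g ∈ Submodule.span L (Set.range ![x, y]) := by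
  have h : ff D x y g = ((Submodule.span L {x}).mkQ (nv D x g),
    (Submodule.span L (Set.range ![x, y])).mkQ (nv D y g)) := rfl
  rw [h, Prod.mk_eq_zero, Submodule.mkQ_apply, Submodule.mkQ_apply,
    Submodule.Quotient.mk_eq_zero, Submodule.Quotient.mk_eq_zero]

variable {x y}

theorem stab_x {g : GE L n} (h : nv D x g ∈ Submodule.span L {x}) :
    Stab D g (Submodule.span L {x}) := by
  refine stab_span D fun v hv => ?_
  rw [Set.mem_singleton_iff] at hv
  rw [hv]
  exact h

theorem span_x_le : Submodule.span L {x} ≤ Submodule.span L (Set.range ![x, y]) :=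
  Submodule.span_mono (by
    intro v hv
    rw [Set.mem_singleton_iff] at hv
    exact ⟨0, by rw [hv]; rfl⟩)

theorem x_mem2 : x ∈ Submodule.span L (Set.range ![x, y]) := Submodule.subset_span ⟨0, rfl⟩

theorem y_mem2 : y ∈ Submodule.span L (Set.range ![x, y]) := Submodule.subset_span ⟨1, rfl⟩

theorem stab_l {g : GE L n} (h : nv D x g ∈ Submodule.span L {x})
    (h' : nv D y g ∈ Submodule.span L (Set.range ![x, y])) :
    Stab D g (Submodule.span L (Set.range ![x, y])) := by
  refine stab_span D ?_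
  rintro v ⟨i, rfl⟩
  fin_cases i
  · exact span_x_le h
  · exact h'

theorem rst_a {a : Fin (n + 1) → L} (ha0 : dt a x = 0) (ha1 : dt a y = 1) :
    rst ![x, y] (lf a) = X 1 := by
  rw [rst_lf, Fin.sum_univ_two]
  simp [ha0, ha1]

variable {U : Submodule L (Fin (n + 1) → L)} {a : Fin (n + 1) → L} {e : ℕ}

/-- a pair which fixes `x` has its `V_x` in `U` -/
theorem V_mem (hxU : x ∈ U) (hW : ∀ E : Fin (n + 1) → Fin (n + 1) → L, nv D x (0, E) ∈ U)
    {g : GE L n} (hg : nv D x g ∈ Submodule.span L {x}) : D.V x 0 g.1 ∈ U := by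
  have h1 : g = (g.1, 0) + (0, g.2) := by
    rw [Prod.mk_add_mk, add_zero, zero_add]
  have h2 : nv D x g = D.V x 0 g.1 + nv D x (0, g.2) := by
    conv_lhs => rw [h1]
    rw [map_add, nv_zero_right]
  have h3 : nv D x g ∈ U := by
    have : Submodule.span L {x} ≤ U := by
      rw [Submodule.span_singleton_le_iff_mem]
      exact hxU
    exact this hg
  rw [h2] at h3
  have h4 := U.sub_mem h3 (hW g.2)
  rwa [add_sub_cancel_right] at h4

/-- the first bracket -/
theorem bracket1 (hc : Lines.Comm D) (hd : d 0 = e + 1) (ha0 : dt a x = 0) (ha1 : dt a y = 1)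
    (hxU : x ∈ U) (hW : ∀ E : Fin (n + 1) → Fin (n + 1) → L, nv D x (0, E) ∈ U)
    (hV : ∀ G : MvPolynomial (Fin (n + 1)) L, G.IsHomogeneous (e + 1) → rst ![x, y] G = 0 →
      D.V x 0 G ∈ U) {g h : GE L n} (hg : g ∈ IP ![x, y] (e + 1)) (hh : h ∈ IP ![x, y] (e + 1))
    (hgx : nv D x g ∈ Submodule.span L {x}) (hhf : ff D x y h = 0) :
    D.V x 0 (lf a * dv (nv D y g) h.1) ∈ U := by
  rw [mem_IP] at hg hh
  rw [ff_eq_zero] at hhf
  have hg1 : g.1.IsHomogeneous (d 0) := by rw [hd]; exact hg.1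
  have hh1 : h.1.IsHomogeneous (d 0) := by rw [hd]; exact hh.1
  have hK := stab_br D hc hg1 hh1 (stab_x D hgx) (stab_x D hhf.1) x
    (Submodule.mem_span_singleton_self x)
  have h1 := V_mem D hxU hW hK
  rw [br_fst] at h1
  have h2 : rst ![x, y] (nF D h g.1) = 0 := by
    refine rst_nF_zero D hg.2 fun i => ?_
    fin_cases i
    · exact span_x_le hhf.1
    · exact hhf.2
  have h3 : rst ![x, y] (nF D g h.1) = - (X 1 * rst ![x, y] (dv (nv D y g) h.1)) := by
    refine rst_nF_one D hh.2 1 fun i hi => ?_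
    fin_cases i
    · exact span_x_le hgx
    · exact absurd rfl hi
  have h4 : D.V x 0 (nF D g h.1 - nF D h g.1 + lf a * dv (nv D y g) h.1) ∈ U := by
    refine hV _ ?_ ?_
    · exact ((nF_hom D hh.1).sub (nF_hom D hg.1)).add (lfm_hom a (dv_hom hh.1 _))
    · rw [map_add, map_sub, h2, h3, map_mul, rst_a ha0 ha1]
      ring
  rw [map_add] at h4
  have h5 := U.sub_mem h4 h1
  rwa [add_sub_cancel_left] at h5

/-- the second bracket -/
theorem bracket2 (hc : Lines.Comm D) (hd : d 0 = e + 1)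
    (hV : ∀ G : MvPolynomial (Fin (n + 1)) L, G.IsHomogeneous (e + 1) → rst ![x, y] G = 0 →
      D.V x 0 G ∈ U) {e0 : Fin (n + 1) → L}
    (hN : ∀ h ∈ IP ![x, y] (e + 1), ff D x y h = 0 ↔ D.V x 0 (lf a * dv e0 h.1) ∈ U)
    {g h : GE L n} (hg : g ∈ IP ![x, y] (e + 1)) (hh : h ∈ IP ![x, y] (e + 1))
    (hge : rst ![x, y] (dv e0 g.1) = 0) (hhe : rst ![x, y] (dv e0 h.1) = 0)
    (hhf : nv D e0 h ∈ Submodule.span L (Set.range ![x, y, e0])) :
    D.V x 0 (lf a * dv (nv D e0 g) h.1) ∈ U := by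
  have hfix : ∀ g ∈ IP ![x, y] (e + 1), rst ![x, y] (dv e0 g.1) = 0 → ff D x y g = 0 := by
    intro g hg hge
    rw [hN g hg]
    rw [mem_IP] at hg
    refine hV _ (lfm_hom a (dv_hom hg.1 _)) ?_
    rw [map_mul, hge, mul_zero]
  have hgf := hfix g hg hge
  have hhf' := hfix h hh hhe
  rw [ff_eq_zero] at hgf hhf'
  rw [mem_IP] at hg hh
  have hg1 : g.1.IsHomogeneous (d 0) := by rw [hd]; exact hg.1
  have hh1 : h.1.IsHomogeneous (d 0) := by rw [hd]; exact hh.1
  have hgi : ∀ i, nv D (![x, y] i) g ∈ Submodule.span L (Set.range ![x, y]) := by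
    intro i
    fin_cases i
    · exact span_x_le hgf.1
    · exact hgf.2
  have hhi : ∀ i, nv D (![x, y] i) h ∈ Submodule.span L (Set.range ![x, y]) := by
    intro i
    fin_cases i
    · exact span_x_le hhf'.1
    · exact hhf'.2
  -- the bracket
  set K := br D g h with hK
  have hKh : K.1.IsHomogeneous (e + 1) := by
    have := br_hom D hg1 hh1
    rwa [hd] at this
  have hK0 : rst ![x, y] K.1 = 0 := by
    rw [hK, br_fst, map_sub, rst_nF_zero D hh.2 hgi, rst_nF_zero D hg.2 hhi, sub_zero]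
  have hKf : ff D x y K = 0 := by
    rw [ff_eq_zero]
    exact ⟨stab_br D hc hg1 hh1 (stab_x D hgf.1) (stab_x D hhf'.1) x
      (Submodule.mem_span_singleton_self x),
      stab_br D hc hg1 hh1 (stab_l D hgf.1 hgf.2) (stab_l D hhf'.1 hhf'.2) y y_mem2⟩
  have h1 := (hN K ⟨hKh, hK0⟩).1 hKf
  have h2 : rst ![x, y] (dv e0 K.1) = - rst ![x, y] (dv (nv D e0 g) h.1) := by
    rw [hK, br_fst, map_sub, map_sub, rst_dv_nF D hhe hgi, rst_dv_nF D hge hhi]
    have h3 : rst ![x, y] (dv (nv D e0 h) g.1) = 0 := by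
      have h4 : ∀ v ∈ Submodule.span L (Set.range ![x, y, e0]), rst ![x, y] (dv v g.1) = 0 := by
        intro v hv
        induction hv using Submodule.span_induction with
        | mem v hv =>
          obtain ⟨i, rfl⟩ := hv
          fin_cases i
          · exact rst_dv_of_mem _ hg.2 x_mem2
          · exact rst_dv_of_mem _ hg.2 y_mem2
          · exact hge
        | zero => rw [dv_zero, map_zero]
        | add u v _ _ hu hv => rw [dv_add, map_add, hu, hv, add_zero]
        | smul c v _ hv => rw [dv_smul, rst_smul, hv, smul_zero]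
      exact h4 _ hhf
    rw [h3, neg_zero, sub_zero]
  have h4 : D.V x 0 (lf a * dv e0 K.1 + lf a * dv (nv D e0 g) h.1) ∈ U := by
    refine hV _ ?_ ?_
    · exact (lfm_hom a (dv_hom hKh _)).add (lfm_hom a (dv_hom hh.1 _))
    · rw [map_add, map_mul, map_mul, h2]
      ring
  rw [map_add] at h4
  have h5 := U.sub_mem h4 h1
  rwa [add_sub_cancel_left] at h5

/-- the main statement on the brackets -/
theorem exists_e0 (hc : Lines.Comm D) (hd : d 0 = e + 1) (ha0 : dt a x = 0) (ha1 : dt a y = 1)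
    {κ : Fin (n + 1) → L} (hU : U = Submodule.span L {x, κ})
    (hW : ∀ E : Fin (n + 1) → Fin (n + 1) → L, nv D x (0, E) ∈ U)
    (hV : ∀ G : MvPolynomial (Fin (n + 1)) L, G.IsHomogeneous (e + 1) → rst ![x, y] G = 0 →
      D.V x 0 G ∈ U) (hR : 2 ≤ finrank L (RR D x a U e))
    (hρ : 2 ≤ finrank L ((IP ![x, y] (e + 1)).map (ff D x y))) :
    ∃ e0 : Fin (n + 1) → L, e0 ∉ Submodule.span L (Set.range ![x, y]) ∧
      finrank L ((IP ![x, y] (e + 1)).map (ff D x y)) ≤ 2 ∧
      (∀ h ∈ IP ![x, y] (e + 1), ff D x y h = 0 ↔ D.V x 0 (lf a * dv e0 h.1) ∈ U) ∧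
      (∀ h ∈ IP ![x, y] (e + 1), rst ![x, y] (dv e0 h.1) = 0 →
        nv D e0 h ∈ Submodule.span L (Set.range ![x, y, e0])) ∧
      2 ≤ finrank L ((IP ![x, y] (e + 1)).map (tv D x a U e0)) := by
  classical
  have hxU : x ∈ U := by
    rw [hU]
    exact Submodule.subset_span (Set.mem_insert _ _)
  -- rank of the first component
  have hr1 : finrank L ((IP ![x, y] (e + 1)).map ((Submodule.span L {x}).mkQ.comp (nv D x))) ≤ 1 := by
    have h1 : (IP ![x, y] (e + 1)).map ((Submodule.span L {x}).mkQ.comp (nv D x)) ≤ Submodule.span L {(Submodule.span L {x}).mkQ κ} := by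
      rintro _ ⟨g, hg, rfl⟩
      have hg' := mem_IP.1 hg
      have h2 : nv D x g ∈ U := by
        have h3 : g = (g.1, 0) + (0, g.2) := by
          rw [Prod.mk_add_mk, add_zero, zero_add]
        rw [h3, map_add, nv_zero_right]
        exact U.add_mem (hV _ hg'.1 hg'.2) (hW _)
      rw [hU, Submodule.mem_span_pair] at h2
      obtain ⟨s, t, hst⟩ := h2
      rw [Submodule.mem_span_singleton]
      refine ⟨t, ?_⟩
      rw [LinearMap.comp_apply, ← hst, map_add, map_smul, map_smul]
      have : (Submodule.span L {x}).mkQ x = 0 := by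
        rw [Submodule.mkQ_apply, Submodule.Quotient.mk_eq_zero]
        exact Submodule.mem_span_singleton_self x
      rw [this, smul_zero, zero_add]
    refine le_trans (Submodule.finrank_mono h1) ?_
    exact finrank_span_one _
  -- the directions
  have hP2 : ∀ i, ![x, y] i ∈ Submodule.span L (Set.range ![x, y]) := fun i => Submodule.subset_span ⟨i, rfl⟩
  have hcb := cb D x a U (ff D x y) (IP ![x, y] (e + 1)) (Submodule.span L (Set.range ![x, y])) e ![x, y] hV hP2 (by
    intro u hu B hB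
    refine mem_IP.2 ⟨lfm_hom u hB, ?_⟩
    rw [map_mul, rst_lf, Finset.sum_eq_zero, zero_mul]
    intro i _
    rw [hu _ (hP2 i), C_0, zero_mul])
  have hle : ((IP ![x, y] (e + 1)) ⊓ LinearMap.ker ((Submodule.span L {x}).mkQ.comp (nv D x))).map ((Submodule.span L (Set.range ![x, y])).mkQ.comp (nv D y)) ≤
      (VS D x a U (ff D x y) (IP ![x, y] (e + 1))).map (Submodule.span L (Set.range ![x, y])).mkQ := by
    rintro _ ⟨g, ⟨hg, hg1⟩, rfl⟩
    refine Submodule.mem_map.2 ⟨nv D y g, ?_, rfl⟩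
    intro h hh hhf
    have hgx : nv D x g ∈ Submodule.span L {x} := by
      have := LinearMap.mem_ker.1 hg1
      rwa [LinearMap.comp_apply, Submodule.mkQ_apply, Submodule.Quotient.mk_eq_zero] at this
    exact bracket1 D hc hd ha0 ha1 hxU hW hV hg hh hgx hhf
  have hb := Submodule.finrank_mono hle
  have hpair := rank_pair ((Submodule.span L {x}).mkQ.comp (nv D x)) ((Submodule.span L (Set.range ![x, y])).mkQ.comp (nv D y)) (IP ![x, y] (e + 1))
  rw [show ((Submodule.span L {x}).mkQ.comp (nv D x)).prod ((Submodule.span L (Set.range ![x, y])).mkQ.comp (nv D y)) = (ff D x y) from rfl] at hpair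
  set ρ := finrank L ((IP ![x, y] (e + 1)).map (ff D x y)) with hρdef
  set β := finrank L (((IP ![x, y] (e + 1)) ⊓ LinearMap.ker ((Submodule.span L {x}).mkQ.comp (nv D x))).map ((Submodule.span L (Set.range ![x, y])).mkQ.comp (nv D y)))
    with hβ
  have hβ2 : β * 2 ≤ ρ := by
    refine le_trans ?_ hcb
    exact Nat.mul_le_mul hb hR
  have hβ1 : β = 1 := by omega
  have hρ2 : ρ = 2 := by omega
  -- the direction `e0`
  obtain ⟨e0, he0, hVS⟩ : ∃ e0, e0 ∉ Submodule.span L (Set.range ![x, y]) ∧ e0 ∈ VS D x a U (ff D x y) (IP ![x, y] (e + 1)) := by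
    by_contra hne
    push Not at hne
    have h0 : (VS D x a U (ff D x y) (IP ![x, y] (e + 1))).map (Submodule.span L (Set.range ![x, y])).mkQ = ⊥ := by
      rw [Submodule.eq_bot_iff]
      rintro _ ⟨v, hv, rfl⟩
      rw [Submodule.mkQ_apply, Submodule.Quotient.mk_eq_zero]
      by_contra hv2
      exact hne v hv2 hv
    rw [h0, finrank_bot] at hb
    omega
  -- the rank of `tv e0`
  have htv : ρ ≤ finrank L ((IP ![x, y] (e + 1)).map (tv D x a U e0)) := by
    rw [hρ2]
    refine le_trans hR (Submodule.finrank_mono ?_)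
    intro r hr
    obtain ⟨B, hB, hBr⟩ := mem_RR D x a U hr
    have hli : LinearIndependent L fun i => (Submodule.span L (Set.range ![x, y])).mkQ ((fun _ : Fin 1 => e0) i) := by
      rw [linearIndependent_unique_iff, Ne, Submodule.mkQ_apply, Submodule.Quotient.mk_eq_zero]
      exact he0
    obtain ⟨u, hu0, hu1⟩ := exists_forms (Submodule.span L (Set.range ![x, y])) (fun _ : Fin 1 => e0) hli
    refine ⟨(lf (u 0) * B, 0), ?_, ?_⟩
    · refine mem_IP.2 ⟨lfm_hom _ hB, ?_⟩
      rw [map_mul, rst_lf, Finset.sum_eq_zero, zero_mul]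
      intro i _
      rw [hu0 0 _ (hP2 i), C_0, zero_mul]
    · rw [tv_apply, ← hBr, ← sub_eq_zero, ← map_sub, ← map_sub, Submodule.mkQ_apply,
        Submodule.Quotient.mk_eq_zero]
      refine hV _ ((lfm_hom a (dv_hom (lfm_hom _ hB) _)).sub (lfm_hom a hB)) ?_
      have h5 : rst ![x, y] (lf (u 0)) = 0 := by
        rw [rst_lf]
        refine Finset.sum_eq_zero fun i _ => ?_
        rw [hu0 0 _ (hP2 i), C_0, zero_mul]
      have h6 := hu1 0 0
      rw [if_pos rfl] at h6
      have h7 : rst ![x, y] (dv e0 (lf (u 0) * B)) = rst ![x, y] B := by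
        rw [Derivation.leibniz, smul_eq_mul, smul_eq_mul, map_add,
          map_mul, map_mul, dv_lf, rst_C, h5, h6, C_1]
        ring
      rw [map_sub, map_mul, h7, map_mul, sub_self]
  have hN : ∀ h ∈ (IP ![x, y] (e + 1)), (ff D x y) h = 0 ↔ D.V x 0 (lf a * dv e0 h.1) ∈ U := by
    intro h hh
    constructor
    · intro hf0
      exact hVS h hh hf0
    · intro h1
      refine ker_of_rank (ff D x y) (tv D x a U e0) (IP ![x, y] (e + 1)) (fun m hm hm0 => ?_) htv h hh ?_
      · rw [tv_zero]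
        exact hVS m hm hm0
      · rw [tv_zero]
        exact h1
  refine ⟨e0, he0, hρ2.le, hN, ?_, hρ2 ▸ htv⟩
  -- the plane
  set S3 := Submodule.span L (Set.range ![x, y, e0]) with hS3
  let M1 : Submodule L (GE L n) := (IP ![x, y] (e + 1)) ⊓ LinearMap.ker
    ((rst ![x, y]).toLinearMap.comp ((dv e0).toLinearMap.comp (LinearMap.fst L _ _)))
  have hM1 : ∀ g, g ∈ M1 ↔ g ∈ (IP ![x, y] (e + 1)) ∧ rst ![x, y] (dv e0 g.1) = 0 := fun g => Iff.rfl
  let Y : GE L n →ₗ[L] ((Fin (n + 1) → L) ⧸ S3) := S3.mkQ.comp (nv D e0)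
  have hY : ∀ g, Y g = 0 ↔ nv D e0 g ∈ S3 := by
    intro g
    change S3.mkQ (nv D e0 g) = 0 ↔ _
    rw [Submodule.mkQ_apply, Submodule.Quotient.mk_eq_zero]
  have hx3 : x ∈ S3 := Submodule.subset_span ⟨0, rfl⟩
  have hy3 : y ∈ S3 := Submodule.subset_span ⟨1, rfl⟩
  have he3 : e0 ∈ S3 := Submodule.subset_span ⟨2, rfl⟩
  have hcb2 := cb D x a U Y M1 S3 e ![x, y] hV (by
      intro i
      fin_cases i
      · exact hx3
      · exact hy3) (by
    intro u hu B hB
    have hru : rst ![x, y] (lf u) = 0 := by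
      rw [rst_lf, Fin.sum_univ_two]
      have e1 : dt u (![x, y] 0) = 0 := hu _ hx3
      have e2 : dt u (![x, y] 1) = 0 := hu _ hy3
      rw [e1, e2]
      simp
    refine (hM1 _).2 ⟨mem_IP.2 ⟨lfm_hom u hB, ?_⟩, ?_⟩
    · rw [map_mul, hru, zero_mul]
    · rw [Derivation.leibniz, smul_eq_mul, smul_eq_mul, map_add, map_mul, map_mul, dv_lf,
        hu _ he3, hru]
      simp)
  have hle2 : M1.map Y ≤ (VS D x a U Y M1).map S3.mkQ := by
    rintro _ ⟨g, hg, rfl⟩
    refine Submodule.mem_map.2 ⟨nv D e0 g, ?_, rfl⟩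
    intro h hh hhf
    have hg' := (hM1 g).1 hg
    have hh' := (hM1 h).1 hh
    exact bracket2 D hc hd hV hN hg'.1 hh'.1 hg'.2 hh'.2 ((hY h).1 hhf)
  have hb2 := Submodule.finrank_mono hle2
  have h0 : finrank L (M1.map Y) = 0 := by
    have h1 : finrank L (M1.map Y) * 2 ≤ finrank L (M1.map Y) :=
      le_trans (Nat.mul_le_mul hb2 hR) hcb2
    omega
  intro h hh hhe
  rw [← hY]
  exact zero_of_rank Y M1 h0 h ((hM1 h).2 ⟨hh, hhe⟩)

end

end Pool.Agent.T2.H65
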