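import Pool.Agent.Lib.MP_c7af3c_ag.T2.H65.Bin

/-!
# MP_c7af3c_ag, project T2: lines with a small variation space, part C (helper65)

The restriction `f` of the sextic to the line is a monomial in a suitable frame.
-/

set_option autoImplicit false

namespace Pool.Agent.T2.H65

open MvPolynomial Pool.Agent.Gen Pool.Agent.Sharp.H75 Module

section

variable {L : Type} [Field L] {d : Fin 1 → ℕ} (D : DSys L 4 1 d) {x y : Fin (4 + 1) → L}

/-- three elements of a space of dimension two are dependent -/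
theorem dep3 {B : Type*} [AddCommGroup B] [Module L B] [FiniteDimensional L B]
    (W : Submodule L B) (hW : finrank L W ≤ 2) (v : Fin 3 → B) (hv : ∀ i, v i ∈ W) :
    ∃ g : Fin 3 → L, ∑ i, g i • v i = 0 ∧ ∃ i, g i ≠ 0 := by
  classical
  have h : ¬ LinearIndependent L (fun i => (⟨v i, hv i⟩ : W)) := by
    intro h
    have := h.fintype_card_le_finrank
    rw [Fintype.card_fin] at this
    omega
  rw [Fintype.not_linearIndependent_iff] at h
  obtain ⟨g, hg, hi⟩ := h
  refine ⟨g, ?_, hi⟩
  have := congrArg (fun w : W => (w : B)) hg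
  simpa using this

theorem finrank_quot (S : Submodule L (Fin (4 + 1) → L)) :
    finrank L ((Fin (4 + 1) → L) ⧸ S) + finrank L S = 5 := by
  have := S.finrank_quotient_add_finrank
  rw [Module.finrank_fintype_fun_eq_card, Fintype.card_fin] at this
  omega

theorem finrank_span_two : finrank L (Submodule.span L (Set.range ![x, y])) ≤ 2 := by
  have := finrank_range_le_card (R := L) ![x, y]
  rwa [Fintype.card_fin, Set.finrank] at this

theorem finrank_span_three {z : Fin (4 + 1) → L} :
    finrank L (Submodule.span L (Set.range ![x, y, z])) ≤ 3 := by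
  have := finrank_range_le_card (R := L) ![x, y, z]
  rwa [Fintype.card_fin, Set.finrank] at this

/-- the relation for the restriction to the line -/
theorem exists_rel (hd : d 0 = 6) (hxy : LinearIndependent L ![x, y])
    (hE : ∀ E : Fin (4 + 1) → Fin (4 + 1) → L, ff D x y (0, E) = 0)
    (hr : finrank L ((IP ![x, y] 6).map (ff D x y)) ≤ 2) :
    ∃ g : Fin 3 → L, (∃ i, g i ≠ 0) ∧
      C (g 0) * (X 0 * pderiv 0 (rst ![x, y] (D.F 0))) +
      C (g 1) * (X 1 * pderiv 0 (rst ![x, y] (D.F 0))) +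
      C (g 2) * (X 1 * pderiv 1 (rst ![x, y] (D.F 0))) = 0 := by
  classical
  obtain ⟨φ, hφ⟩ := rst_dual ![x, y] hxy
  have hφ00 : dt (φ 0) x = 1 := by have := hφ 0 0; simpa using this
  have hφ01 : dt (φ 0) y = 0 := by have := hφ 0 1; simpa using this
  have hφ10 : dt (φ 1) x = 0 := by have := hφ 1 0; simpa using this
  have hφ11 : dt (φ 1) y = 1 := by have := hφ 1 1; simpa using this
  have hF : (D.F 0).IsHomogeneous 6 := by have := D.hom 0; rwa [hd] at this
  let S : Submodule L (GE L 4) := (homogeneousSubmodule (Fin (4 + 1)) L 6).comap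
    (LinearMap.fst L _ _)
  have hS : ∀ g : GE L 4, g ∈ S ↔ g.1.IsHomogeneous 6 := fun g => Iff.rfl
  let r' : GE L 4 →ₗ[L] (Fin 7 → L) :=
    (coB L 6).comp ((rst ![x, y]).toLinearMap.comp (LinearMap.fst L _ _))
  have hr' : ∀ g : GE L 4, r' g = coB L 6 (rst ![x, y] g.1) := fun g => rfl
  have hrc := rank_pair_comm (ff D x y) r' S
  -- the values on `E * F`
  have hval : ∀ E : Fin (4 + 1) → Fin (4 + 1) → L, ff D x y (af E (D.F 0), 0) =
      - ((Submodule.span L {x}).mkQ (mvL x E),
        (Submodule.span L (Set.range ![x, y])).mkQ (mvL y E)) := by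
    intro E
    have h1 := (ff_eq_zero D x y).1 (hE E)
    have h2 : ff D x y (af E (D.F 0), 0) = ((Submodule.span L {x}).mkQ (nv D x (af E (D.F 0), 0)),
      (Submodule.span L (Set.range ![x, y])).mkQ (nv D y (af E (D.F 0), 0))) := rfl
    rw [h2, V_af, V_af, map_sub, map_sub]
    have h3 : (Submodule.span L {x}).mkQ (nv D x (0, E)) = 0 := by
      rw [Submodule.mkQ_apply, Submodule.Quotient.mk_eq_zero]
      exact h1.1
    have h4 : (Submodule.span L (Set.range ![x, y])).mkQ (nv D y (0, E)) = 0 := by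
      rw [Submodule.mkQ_apply, Submodule.Quotient.mk_eq_zero]
      exact h1.2
    rw [h3, h4, zero_sub, zero_sub]
    rfl
  have h1 : 7 ≤ finrank L (S.map (ff D x y)) := by
    have htop : S.map (ff D x y) = ⊤ := by
      rw [Submodule.eq_top_iff']
      rintro ⟨α, β⟩
      obtain ⟨α, rfl⟩ := Submodule.mkQ_surjective _ α
      obtain ⟨β, rfl⟩ := Submodule.mkQ_surjective _ β
      refine Submodule.mem_map.2 ⟨-(af (ten (φ 0) α + ten (φ 1) β) (D.F 0), 0), ?_, ?_⟩
      · refine S.neg_mem ?_
        exact af_hom _ hF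
      · rw [map_neg, hval, neg_neg, map_add (mvL x), map_add (mvL y), mvL_ten, mvL_ten, mvL_ten,
          mvL_ten, hφ00, hφ01, hφ10, hφ11]
        simp
    rw [htop, finrank_top, Module.finrank_prod]
    have e1 := finrank_quot (Submodule.span L {x})
    have e2 := finrank_quot (Submodule.span L (Set.range ![x, y]))
    have e3 := finrank_span_one (L := L) x
    have e4 := finrank_span_two (x := x) (y := y)
    omega
  have h2 : finrank L (S.map r') ≤ 7 := by
    have := Submodule.finrank_le (S.map r')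
    rwa [Module.finrank_fintype_fun_eq_card, Fintype.card_fin] at this
  have h3 : finrank L ((S ⊓ LinearMap.ker r').map (ff D x y)) ≤ 2 := by
    refine le_trans (Submodule.finrank_mono (Submodule.map_mono ?_)) hr
    rintro g ⟨hg, hg1⟩
    refine mem_IP.2 ⟨hg, ?_⟩
    exact coB_zero (rst_hom _ hg) (LinearMap.mem_ker.1 hg1)
  have h4 : finrank L ((S ⊓ LinearMap.ker (ff D x y)).map r') ≤ 2 := by omega
  -- the three elements
  let E : Fin 3 → Fin (4 + 1) → Fin (4 + 1) → L := ![ten (φ 0) x, ten (φ 1) x, ten (φ 1) y]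
  have hmem : ∀ i, r' (af (E i) (D.F 0), 0) ∈ (S ⊓ LinearMap.ker (ff D x y)).map r' := by
    intro i
    refine Submodule.mem_map_of_mem ⟨?_, ?_⟩
    · exact af_hom _ hF
    · refine LinearMap.mem_ker.2 ?_
      rw [hval, neg_eq_zero, Prod.mk_eq_zero, Submodule.mkQ_apply, Submodule.mkQ_apply,
        Submodule.Quotient.mk_eq_zero, Submodule.Quotient.mk_eq_zero]
      fin_cases i
      · change mvL x (ten (φ 0) x) ∈ _ ∧ mvL y (ten (φ 0) x) ∈ _
        rw [mvL_ten, mvL_ten, hφ00, hφ01, one_smul, zero_smul]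
        exact ⟨Submodule.mem_span_singleton_self x, Submodule.zero_mem _⟩
      · change mvL x (ten (φ 1) x) ∈ _ ∧ mvL y (ten (φ 1) x) ∈ _
        rw [mvL_ten, mvL_ten, hφ10, hφ11, one_smul, zero_smul]
        exact ⟨Submodule.zero_mem _, x_mem2⟩
      · change mvL x (ten (φ 1) y) ∈ _ ∧ mvL y (ten (φ 1) y) ∈ _
        rw [mvL_ten, mvL_ten, hφ10, hφ11, one_smul, zero_smul]
        exact ⟨Submodule.zero_mem _, y_mem2⟩
  obtain ⟨g, hg, hgi⟩ := dep3 _ h4 _ hmem
  refine ⟨g, hgi, ?_⟩
  have e0 : rst ![x, y] (af (E 0) (D.F 0)) = X 0 * pderiv 0 (rst ![x, y] (D.F 0)) := by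
    change rst ![x, y] (af (ten (φ 0) x) (D.F 0)) = _
    rw [af_ten, map_mul, rst_lf, Fin.sum_univ_two, pderiv_rst]
    simp [hφ00, hφ01]
  have e1 : rst ![x, y] (af (E 1) (D.F 0)) = X 1 * pderiv 0 (rst ![x, y] (D.F 0)) := by
    change rst ![x, y] (af (ten (φ 1) x) (D.F 0)) = _
    rw [af_ten, map_mul, rst_lf, Fin.sum_univ_two, pderiv_rst]
    simp [hφ10, hφ11]
  have e2 : rst ![x, y] (af (E 2) (D.F 0)) = X 1 * pderiv 1 (rst ![x, y] (D.F 0)) := by
    change rst ![x, y] (af (ten (φ 1) y) (D.F 0)) = _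
    rw [af_ten, map_mul, rst_lf, Fin.sum_univ_two, pderiv_rst]
    simp [hφ10, hφ11]
  rw [Fin.sum_univ_three, ← map_smul, ← map_smul, ← map_smul, ← map_add, ← map_add, hr'] at hg
  have hhom : (g 0 • af (E 0) (D.F 0) + g 1 • af (E 1) (D.F 0) +
      g 2 • af (E 2) (D.F 0)).IsHomogeneous 6 := by
    have h5 : ∀ i, (g i • af (E i) (D.F 0)).IsHomogeneous 6 := fun i =>
      (homogeneousSubmodule (Fin (4 + 1)) L 6).smul_mem (g i) (af_hom (E i) hF)
    exact ((h5 0).add (h5 1)).add (h5 2)
  have h6 := coB_zero (rst_hom ![x, y] hhom) hg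
  rw [map_add, map_add, rst_smul, rst_smul, rst_smul, e0, e1, e2] at h6
  simpa only [smul_eq_C_mul] using h6

/-- the restriction is a monomial in a suitable frame -/
theorem exists_mu [CharZero L] (hd : d 0 = 6) (hxy : LinearIndependent L ![x, y])
    (hf : rst ![x, y] (D.F 0) ≠ 0) {g : Fin 3 → L} (hg : ∃ i, g i ≠ 0)
    (hrel : C (g 0) * (X 0 * pderiv 0 (rst ![x, y] (D.F 0))) +
      C (g 1) * (X 1 * pderiv 0 (rst ![x, y] (D.F 0))) +
      C (g 2) * (X 1 * pderiv 1 (rst ![x, y] (D.F 0))) = 0) :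
    ∃ μ : L, ∃ i ≤ 6, ∃ t : L, t ≠ 0 ∧
      rst ![x, y + μ • x] (D.F 0) = monomial (m2 (6 - i) i) t := by
  classical
  have hF : (D.F 0).IsHomogeneous 6 := by have := D.hom 0; rwa [hd] at this
  by_cases hac : g 0 = g 2
  · by_cases h0 : g 0 = 0
    · -- `X_1 df/dX_0 = 0`
      have h1 : g 1 ≠ 0 := by
        obtain ⟨i, hi⟩ := hg
        fin_cases i
        · exact absurd h0 hi
        · exact hi
        · exact absurd (hac ▸ h0) hi
      rw [← hac, h0, C_0, zero_mul, zero_mul, zero_add, add_zero] at hrel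
      have h2 : pderiv 0 (rst ![x, y] (D.F 0)) = 0 := by
        rcases mul_eq_zero.1 hrel with h | h
        · exact absurd h (by simpa using h1)
        · rcases mul_eq_zero.1 h with h | h
          · exact absurd h (X_ne_zero _)
          · exact h
      obtain ⟨i, hi, t, ht, h3⟩ := one_mono (rst_hom ![x, y] hF) hf
        (show (1 : L) ≠ 0 from one_ne_zero) (fun I => by
          have h4 := coeff_X_mul_pderiv (L := L) (0 : Fin 2) (rst ![x, y] (D.F 0)) I
          rw [h2, mul_zero, coeff_zero] at h4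
          rw [zero_mul, add_zero, one_mul, ← h4])
      refine ⟨0, i, hi, t, ht, ?_⟩
      rw [zero_smul, add_zero]
      exact h3
    · exfalso
      apply hf
      refine zero_nil (m := 6) (by norm_num) (b := g 1) h0 ?_
      have h4 : C (g 0) * (X 0 * pderiv 0 (rst ![x, y] (D.F 0)) +
          X 1 * pderiv 1 (rst ![x, y] (D.F 0))) =
          C ((6 : ℕ) * g 0 : L) * rst ![x, y] (D.F 0) := by
        ext I
        rw [coeff_C_mul, coeff_add, coeff_X_mul_pderiv, coeff_X_mul_pderiv, coeff_C_mul]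
        by_cases hI : coeff I (rst ![x, y] (D.F 0)) = 0
        · rw [hI]; ring
        · have h5 := degree_of_hom (rst_hom ![x, y] hF) hI
          rw [Finsupp.degree_eq_sum, Fin.sum_univ_two] at h5
          have h6 : (I 0 : L) + (I 1 : L) = 6 := by exact_mod_cast h5
          push_cast
          linear_combination g 0 * coeff I (rst ![x, y] (D.F 0)) * h6
      rw [← h4, ← hrel, ← hac]
      ring
  · -- diagonal
    set μ := g 1 / (g 2 - g 0) with hμ
    have hne : g 2 - g 0 ≠ 0 := fun h => hac (sub_eq_zero.1 h).symm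
    obtain ⟨φ, hφ⟩ := rst_dual ![x, y] hxy
    have hφ00 : dt (φ 0) x = 1 := by have := hφ 0 0; simpa using this
    have hφ01 : dt (φ 0) y = 0 := by have := hφ 0 1; simpa using this
    have hφ10 : dt (φ 1) x = 0 := by have := hφ 1 0; simpa using this
    have hφ11 : dt (φ 1) y = 1 := by have := hφ 1 1; simpa using this
    have h1 : rst ![x, y] (C (g 0) * (lf (φ 0) * dv x (D.F 0)) +
        C (g 1) * (lf (φ 1) * dv x (D.F 0)) + C (g 2) * (lf (φ 1) * dv y (D.F 0))) = 0 := by
      rw [← hrel, pderiv_rst, pderiv_rst]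
      simp only [map_add, map_mul, rst_C, rst_lf, Fin.sum_univ_two]
      simp [hφ00, hφ01, hφ10, hφ11]
    have hsub : ∀ j, ![x, y + μ • x] j ∈ Submodule.span L (Set.range ![x, y]) := by
      intro j
      fin_cases j
      · exact x_mem2
      · exact Submodule.add_mem _ y_mem2 (Submodule.smul_mem _ _ x_mem2)
    have h2 := rst_span hsub h1
    set f' := rst ![x, y + μ • x] (D.F 0) with hf'
    have h3 : rst ![x, y + μ • x] (dv x (D.F 0)) = pderiv 0 f' := by
      rw [hf', pderiv_rst]; rfl
    have h4 : rst ![x, y + μ • x] (dv y (D.F 0)) = pderiv 1 f' - C μ * pderiv 0 f' := by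
      rw [hf', pderiv_rst, pderiv_rst]
      change _ = rst _ (dv (y + μ • x) (D.F 0)) - C μ * rst _ (dv x (D.F 0))
      rw [dv_add, dv_smul, map_add, rst_smul, smul_eq_C_mul]
      ring
    have h5 : C (g 0) * (X 0 * pderiv 0 f') + C (g 2) * (X 1 * pderiv 1 f') = 0 := by
      have h6 : C (g 0) * C μ + C (g 1) - C (g 2) * C μ = (0 : MvPolynomial (Fin 2) L) := by
        rw [← C_mul, ← C_mul, ← C_add, ← C_sub]
        have : g 0 * μ + g 1 - g 2 * μ = 0 := by
          rw [hμ]
          field_simp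
          ring
        rw [this, C_0]
      simp only [map_add, map_mul, rst_C, rst_lf, Fin.sum_univ_two, h3, h4] at h2
      have e1 : dt (φ 0) (![x, y + μ • x] 0) = 1 := hφ00
      have e2 : dt (φ 0) (![x, y + μ • x] 1) = μ := by
        change dt (φ 0) (y + μ • x) = μ
        rw [dt_add, dt_smul, hφ01, hφ00]
        ring
      have e3 : dt (φ 1) (![x, y + μ • x] 0) = 0 := hφ10
      have e4 : dt (φ 1) (![x, y + μ • x] 1) = 1 := by
        change dt (φ 1) (y + μ • x) = 1
        rw [dt_add, dt_smul, hφ11, hφ10]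
        ring
      rw [e1, e2, e3, e4, C_1, C_0] at h2
      linear_combination h2 - X 1 * pderiv 0 f' * h6
    have hf'0 : f' ≠ 0 := by
      intro h
      apply hf
      have hsub' : ∀ j, ![x, y] j ∈ Submodule.span L (Set.range ![x, y + μ • x]) := by
        intro j
        fin_cases j
        · exact x_mem2
        · have h9 := Submodule.sub_mem _ (y_mem2 (x := x) (y := y + μ • x))
            (Submodule.smul_mem _ μ (x_mem2 (x := x) (y := y + μ • x)))
          rw [add_sub_cancel_right] at h9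
          exact h9
      exact rst_span hsub' h
    obtain ⟨i, hi, t, ht, h6⟩ := one_mono (rst_hom _ hF) hf'0 hac (fun I => by
      have h7 := congrArg (coeff I) h5
      rw [coeff_add, coeff_C_mul, coeff_C_mul, coeff_X_mul_pderiv, coeff_X_mul_pderiv,
        coeff_zero] at h7
      linear_combination h7)
    exact ⟨μ, i, hi, t, ht, h6⟩

end

end Pool.Agent.T2.H65
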