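import Pool.Agent.Lib.MP_c7af3c_ag.T2.H65.LineC

/-!
# MP_c7af3c_ag, project T2: lines with a small variation space, part D (helper65)

The two counts.
-/

set_option autoImplicit false

namespace Pool.Agent.T2.H65

open MvPolynomial Pool.Agent.Gen Pool.Agent.Sharp.H75 Module

section

variable {L : Type} [Field L] {d : Fin 1 → ℕ} (D : DSys L 4 1 d) {x y : Fin (4 + 1) → L}

/-- the monomials of degree 6 in two variables except `(6 - i, i)` -/
noncomputable def N2 (i : ℕ) : Finset (Fin 2 →₀ ℕ) :=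
  ((Finset.range 7).filter fun j => j ≠ i).image fun j => m2 (6 - j) j

theorem card_N2 {i : ℕ} (hi : i ≤ 6) : (N2 i).card = 6 := by
  unfold N2
  rw [Finset.card_image_of_injective]
  · rw [Finset.filter_ne']
    rw [Finset.card_erase_of_mem (Finset.mem_range.2 (by omega)), Finset.card_range]
  · intro a b h
    exact (m2_inj.1 h).2

theorem mem_N2 {i : ℕ} {I : Fin 2 →₀ ℕ} (h : I ∈ N2 i) : I.degree = 6 ∧ I ≠ m2 (6 - i) i := by
  unfold N2 at h
  obtain ⟨j, hj, rfl⟩ := Finset.mem_image.1 h
  rw [Finset.mem_filter, Finset.mem_range] at hj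
  refine ⟨?_, ?_⟩
  · rw [m2_degree]; omega
  · intro h2
    exact hj.2 (m2_inj.1 h2).2

/-- the differential on the pairs which vanish on the space -/
theorem Jc_IP {r : ℕ} {P : Fin r → Fin (4 + 1) → L} (N : Finset (Fin r →₀ ℕ))
    (h0 : ∀ I ∈ N, coeff I (rst P (D.F 0)) = 0) {g : GE L 4} (hg : g ∈ IP P (d 0)) :
    Jc (D.F 0) P N (fun i => nv D (P i) g) = 0 := by
  funext I
  rw [mem_IP] at hg
  have h1 := dco_rst_nab D P g (D.F 0)
  rw [nF_F D hg.1, hg.2, zero_add] at h1
  have h2 := congrArg (coeff I.1) h1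
  rw [coeff_dco, h0 I.1 I.2, map_zero] at h2
  rw [Jc_apply, ← h2]
  rfl

/-- contact of order 6 at the point `x`: the variation has rank one -/
theorem count1 (hd : d 0 = 6) (hxy : LinearIndependent L ![x, y]) {t : L}
    (hf : rst ![x, y] (D.F 0) = monomial (m2 0 6) t) :
    finrank L ((IP ![x, y] 6).map (ff D x y)) ≤ 1 := by
  classical
  have h0 : ∀ I ∈ N2 6, coeff I (rst ![x, y] (D.F 0)) = 0 := by
    intro I hI
    rw [hf, coeff_monomial, if_neg]
    intro h
    exact (mem_N2 hI).2 h.symm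
  have hker : finrank L (LinearMap.ker (Jc (r := 2) (D.F 0) ![x, y] (N2 6))) + (N2 6).card =
      2 * (4 + 1) :=
    finrank_ker_Jc (r := 2) D hxy (N2 6) (fun I hI => by rw [hd]; exact (mem_N2 hI).1) h0
  rw [card_N2 le_rfl] at hker
  set K := LinearMap.ker (Jc (r := 2) (D.F 0) ![x, y] (N2 6)) with hK
  let Q : (Fin 2 → Fin (4 + 1) → L) →ₗ[L] ((Fin (4 + 1) → L) ⧸ Submodule.span L {x}) ×
      ((Fin (4 + 1) → L) ⧸ Submodule.span L (Set.range ![x, y])) :=
    ((Submodule.span L {x}).mkQ.comp (LinearMap.proj 0)).prod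
      ((Submodule.span L (Set.range ![x, y])).mkQ.comp (LinearMap.proj 1))
  have hQ : ∀ ξ, Q ξ = ((Submodule.span L {x}).mkQ (ξ 0),
    (Submodule.span L (Set.range ![x, y])).mkQ (ξ 1)) := fun ξ => rfl
  have hle : (IP ![x, y] 6).map (ff D x y) ≤ K.map Q := by
    rintro _ ⟨g, hg, rfl⟩
    refine Submodule.mem_map.2 ⟨fun i => nv D (![x, y] i) g, ?_, rfl⟩
    refine LinearMap.mem_ker.2 (Jc_IP D (N2 6) h0 ?_)
    rw [hd]
    exact hg
  refine le_trans (Submodule.finrank_mono hle) ?_
  have hrc := rank_pair_comm (LinearMap.id : (Fin 2 → Fin (4 + 1) → L) →ₗ[L] _) Q K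
  have e1 : (K ⊓ LinearMap.ker (LinearMap.id : (Fin 2 → Fin (4 + 1) → L) →ₗ[L] _)).map Q = ⊥ := by
    rw [LinearMap.ker_id, inf_bot_eq, Submodule.map_bot]
  rw [e1, finrank_bot, Submodule.map_id, Submodule.map_id] at hrc
  -- three independent elements of the kernel
  have hx0 : x ≠ 0 := hxy.ne_zero 0
  let w : Fin 3 → (Fin 2 → Fin (4 + 1) → L) := ![_root_.Pi.single 0 x, _root_.Pi.single 1 x, _root_.Pi.single 1 y]
  have hw : ∀ i, w i ∈ K ⊓ LinearMap.ker Q := by
    intro i
    fin_cases i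
    · refine ⟨LinearMap.mem_ker.2 (Jc_self' (D.F 0) ![x, y] (N2 6) h0 0), LinearMap.mem_ker.2 ?_⟩
      change Q (_root_.Pi.single 0 x) = 0
      rw [hQ, Prod.mk_eq_zero, Submodule.mkQ_apply, Submodule.mkQ_apply,
        Submodule.Quotient.mk_eq_zero, Submodule.Quotient.mk_eq_zero]
      constructor
      · rw [_root_.Pi.single_eq_same]
        exact Submodule.mem_span_singleton_self x
      · rw [_root_.Pi.single_eq_of_ne (by decide)]
        exact Submodule.zero_mem _
    · refine ⟨LinearMap.mem_ker.2 (Jc_self (D.F 0) ![x, y] (N2 6) 1 0 fun I hI => ?_),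
        LinearMap.mem_ker.2 ?_⟩
      · rw [hf, pderiv_monomial]
        simp [m2]
      · change Q (_root_.Pi.single 1 x) = 0
        rw [hQ, Prod.mk_eq_zero, Submodule.mkQ_apply, Submodule.mkQ_apply,
          Submodule.Quotient.mk_eq_zero, Submodule.Quotient.mk_eq_zero]
        constructor
        · rw [_root_.Pi.single_eq_of_ne (by decide)]
          exact Submodule.zero_mem _
        · rw [_root_.Pi.single_eq_same]
          exact x_mem2
    · refine ⟨LinearMap.mem_ker.2 (Jc_self' (D.F 0) ![x, y] (N2 6) h0 1), LinearMap.mem_ker.2 ?_⟩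
      change Q (_root_.Pi.single 1 y) = 0
      rw [hQ, Prod.mk_eq_zero, Submodule.mkQ_apply, Submodule.mkQ_apply,
        Submodule.Quotient.mk_eq_zero, Submodule.Quotient.mk_eq_zero]
      constructor
      · rw [_root_.Pi.single_eq_of_ne (by decide)]
        exact Submodule.zero_mem _
      · rw [_root_.Pi.single_eq_same]
        exact y_mem2
  have hli : LinearIndependent L (fun i => (⟨w i, hw i⟩ : (K ⊓ LinearMap.ker Q :
      Submodule L (Fin 2 → Fin (4 + 1) → L)))) := by
    have h5 : LinearIndependent L w := by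
      rw [Fintype.linearIndependent_iff]
      intro g hg
      rw [Fin.sum_univ_three] at hg
      have h6 : g 0 • x = 0 := by
        have := congrFun hg 0
        simpa [w] using this
      have h7 : g 1 • x + g 2 • y = 0 := by
        have := congrFun hg 1
        simpa [w] using this
      have h8 := LinearIndependent.pair_iff.1 hxy _ _ h7
      intro i
      fin_cases i
      · exact (smul_eq_zero.1 h6).resolve_right hx0
      · exact h8.1
      · exact h8.2
    exact LinearIndependent.of_comp (Submodule.subtype _) h5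
  have h9 := hli.fintype_card_le_finrank
  rw [Fintype.card_fin] at h9
  omega

/-- the substitution `X_2 -> 0` -/
noncomputable def s32 : MvPolynomial (Fin 3) L →ₐ[L] MvPolynomial (Fin 2) L :=
  aeval ![X 0, X 1, 0]

/-- the exponent `(I_0, I_1, b)` -/
noncomputable def m3 (I : Fin 2 →₀ ℕ) (b : ℕ) : Fin 3 →₀ ℕ :=
  Finsupp.single 0 (I 0) + Finsupp.single 1 (I 1) + Finsupp.single 2 b

theorem m3_0 (I : Fin 2 →₀ ℕ) (b : ℕ) : m3 I b 0 = I 0 := by simp [m3]
theorem m3_1 (I : Fin 2 →₀ ℕ) (b : ℕ) : m3 I b 1 = I 1 := by simp [m3]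
theorem m3_2 (I : Fin 2 →₀ ℕ) (b : ℕ) : m3 I b 2 = b := by simp [m3]

theorem m3_inj {I J : Fin 2 →₀ ℕ} {a b : ℕ} (h : m3 I a = m3 J b) : I = J ∧ a = b := by
  have h0 := DFunLike.congr_fun h 0
  have h1 := DFunLike.congr_fun h 1
  have h2 := DFunLike.congr_fun h 2
  rw [m3_0, m3_0] at h0
  rw [m3_1, m3_1] at h1
  rw [m3_2, m3_2] at h2
  refine ⟨?_, h2⟩
  rw [eq_m2 I, eq_m2 J, h0, h1]

theorem m3_degree (I : Fin 2 →₀ ℕ) (b : ℕ) : (m3 I b).degree = I.degree + b := by
  rw [Finsupp.degree_eq_sum, Finsupp.degree_eq_sum, Fin.sum_univ_three, Fin.sum_univ_two, m3_0,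
    m3_1, m3_2]

theorem coeff_s32 (I : Fin 2 →₀ ℕ) (q : MvPolynomial (Fin 3) L) :
    coeff I (s32 q) = coeff (m3 I 0) q := by
  classical
  induction q using MvPolynomial.induction_on' with
  | monomial J a =>
    unfold s32
    rw [aeval_monomial, coeff_monomial, Finsupp.prod_fintype _ _ (fun i => pow_zero _),
      Fin.prod_univ_three]
    simp only [Matrix.cons_val_zero, Matrix.cons_val_one, Matrix.cons_val_two, Matrix.head_cons,
      Matrix.tail_cons]
    by_cases h2 : J 2 = 0
    · rw [h2, pow_zero, mul_one]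
      have h3 : (X 0 ^ J 0 * X 1 ^ J 1 : MvPolynomial (Fin 2) L) =
          monomial (m2 (J 0) (J 1)) 1 := by
        rw [X_pow_eq_monomial, X_pow_eq_monomial, monomial_mul, mul_one]
        rfl
      rw [h3, algebraMap_eq, C_mul_monomial, mul_one, coeff_monomial]
      have h4 : m2 (J 0) (J 1) = I ↔ J = m3 I 0 := by
        constructor
        · intro h
          rw [← h]
          ext i
          fin_cases i
          · simp [m3, m2]
          · simp [m3, m2]
          · simp [m3, m2, h2]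
        · intro h
          rw [h, m3_0, m3_1, ← eq_m2]
      simp only [h4]
    · rw [zero_pow h2, mul_zero, mul_zero, coeff_zero, if_neg]
      intro h
      apply h2
      rw [h, m3_2]
  | add p q hp hq => rw [map_add, coeff_add, hp, hq, coeff_add]

/-- the monomials of degree 6 in three variables of degree at most one in `X_2` except
`(6 - i, i, 0)` -/
noncomputable def N3 (i : ℕ) : Finset (Fin 3 →₀ ℕ) :=
  (N2 i).image (fun I => m3 I 0) ∪ (Finset.range 6).image fun j => m3 (m2 (5 - j) j) 1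

theorem card_N3 {i : ℕ} (hi : i ≤ 6) : (N3 i).card = 12 := by
  unfold N3
  rw [Finset.card_union_of_disjoint, Finset.card_image_of_injective, card_N2 hi,
    Finset.card_image_of_injective, Finset.card_range]
  · intro a b h
    exact (m2_inj.1 (m3_inj h).1).2
  · intro a b h
    exact (m3_inj h).1
  · rw [Finset.disjoint_left]
    intro I h1 h2
    obtain ⟨J, _, rfl⟩ := Finset.mem_image.1 h1
    obtain ⟨j, _, h3⟩ := Finset.mem_image.1 h2
    exact absurd (m3_inj h3).2 (by decide)

theorem N3_degree {i : ℕ} {I : Fin 3 →₀ ℕ} (h : I ∈ N3 i) : I.degree = 6 := by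
  unfold N3 at h
  rcases Finset.mem_union.1 h with h | h
  · obtain ⟨J, hJ, rfl⟩ := Finset.mem_image.1 h
    rw [m3_degree, (mem_N2 hJ).1]
  · obtain ⟨j, hj, rfl⟩ := Finset.mem_image.1 h
    rw [Finset.mem_range] at hj
    rw [m3_degree, m2_degree]
    omega

/-- a line with a monomial and a point of the plane with all derivatives zero: everything is
constant -/
theorem count2 (hd : d 0 = 6) {e : Fin (4 + 1) → L} (hxye : LinearIndependent L ![x, y, e])
    {i : ℕ} (hi : i ≤ 6) {t : L} (hf : rst ![x, y] (D.F 0) = monomial (m2 (6 - i) i) t)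
    (he : rst ![x, y] (dv e (D.F 0)) = 0) (δ : Derivation ℤ L L)
    (hδ : ∀ I, δ (coeff I (D.F 0)) = 0) : (fun p => δ (x p)) ∈ Submodule.span L {x} := by
  classical
  have hs : (s32 (L := L)).comp (rst ![x, y, e]) = rst ![x, y] := by
    apply MvPolynomial.algHom_ext
    intro p
    rw [AlgHom.comp_apply, rst_X, rst_X, Fin.sum_univ_three, Fin.sum_univ_two]
    unfold s32
    simp
  have hs' : ∀ H, s32 (rst ![x, y, e] H) = rst ![x, y] H := fun H => AlgHom.congr_fun hs H
  have h0 : ∀ I ∈ N3 i, coeff I (rst ![x, y, e] (D.F 0)) = 0 := by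
    intro I hI
    unfold N3 at hI
    rcases Finset.mem_union.1 hI with h | h
    · obtain ⟨J, hJ, rfl⟩ := Finset.mem_image.1 h
      rw [← coeff_s32, hs', hf, coeff_monomial, if_neg]
      intro h
      exact (mem_N2 hJ).2 h.symm
    · obtain ⟨j, hj, rfl⟩ := Finset.mem_image.1 h
      have h1 : coeff (m3 (m2 (5 - j) j) 0) (pderiv 2 (rst ![x, y, e] (D.F 0))) = 0 := by
        rw [← coeff_s32, pderiv_rst]
        have : dv (![x, y, e] 2) (D.F 0) = dv e (D.F 0) := rfl
        rw [this, hs', he, coeff_zero]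
      have h2 := coeff_X_mul_pderiv (L := L) (2 : Fin 3) (rst ![x, y, e] (D.F 0))
        (Finsupp.single 2 1 + m3 (m2 (5 - j) j) 0)
      rw [coeff_X_mul, h1] at h2
      have h3 : (Finsupp.single 2 1 + m3 (m2 (5 - j) j) 0 : Fin 3 →₀ ℕ) =
          m3 (m2 (5 - j) j) 1 := by
        ext k
        fin_cases k <;> simp [m3]
      rw [h3, m3_2] at h2
      simpa using h2.symm
  have h := cnt_eq (r := 3) D hxye (N3 i) (fun I hI => by rw [hd]; exact N3_degree hI) h0
    (by rw [card_N3 hi]) δ hδ 0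
  exact h

end

end Pool.Agent.T2.H65
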