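import Pool.Agent.Lib.MP_c7af3c_ag.T2.H65.LineD

/-!
# MP_c7af3c_ag, project T2: lines with a small variation space, part E (helper65)

Two roots: a point of the plane in whose direction all the derivatives vanish on the line.
-/

set_option autoImplicit false

namespace Pool.Agent.T2.H65

open MvPolynomial Pool.Agent.Gen Pool.Agent.Sharp.H75 Module

section

variable {L : Type} [Field L] {d : Fin 1 → ℕ} (D : DSys L 4 1 d) {x y : Fin (4 + 1) → L}

/-- the partial derivatives of a monomial with two roots are independent -/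
theorem pd_indep [CharZero L] {i : ℕ} (h1 : 1 ≤ i) (h5 : i ≤ 5) {t : L} (ht : t ≠ 0)
    {f : MvPolynomial (Fin 2) L} (hf : f = monomial (m2 (6 - i) i) t) {α β : L}
    (h : C α * pderiv 0 f + C β * pderiv 1 f = 0) : α = 0 ∧ β = 0 := by
  have e0 : X 0 * pderiv 0 f = C ((6 - i : ℕ) : L) * f := by
    ext I
    rw [coeff_X_mul_pderiv, coeff_C_mul]
    by_cases hI : coeff I f = 0
    · rw [hI]; ring
    · rw [hf, coeff_monomial] at hI
      have : m2 (6 - i) i = I := by
        by_contra hne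
        exact hI (if_neg hne)
      rw [← this, m2_0]
  have e1 : X 1 * pderiv 1 f = C ((i : ℕ) : L) * f := by
    ext I
    rw [coeff_X_mul_pderiv, coeff_C_mul]
    by_cases hI : coeff I f = 0
    · rw [hI]; ring
    · rw [hf, coeff_monomial] at hI
      have : m2 (6 - i) i = I := by
        by_contra hne
        exact hI (if_neg hne)
      rw [← this, m2_1]
  have hf0 : f ≠ 0 := by
    rw [hf]
    intro h0
    exact ht (monomial_eq_zero.1 h0)
  have h2 : (C (α * ((6 - i : ℕ) : L)) * X 1 + C (β * (i : L)) * X 0) * f = 0 := by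
    rw [C_mul, C_mul]
    linear_combination X 0 * X 1 * h - C α * X 1 * e0 - C β * X 0 * e1
  have h3 := (mul_eq_zero.1 h2).resolve_right hf0
  have c1 := congrArg (coeff (Finsupp.single 1 1)) h3
  have c0 := congrArg (coeff (Finsupp.single 0 1)) h3
  have n1 : ((6 - i : ℕ) : L) ≠ 0 := by
    have : (6 - i : ℕ) ≠ 0 := by omega
    exact_mod_cast this
  have n2 : (i : L) ≠ 0 := by
    have : i ≠ 0 := by omega
    exact_mod_cast this
  rw [coeff_add, coeff_C_mul, coeff_C_mul, coeff_X, coeff_X, coeff_zero] at c1 c0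
  have s1 : ¬ (Finsupp.single (0 : Fin 2) 1 = Finsupp.single (1 : Fin 2) 1) := by
    intro h
    have := DFunLike.congr_fun h 0
    simp at this
  have s2 : ¬ (Finsupp.single (1 : Fin 2) 1 = Finsupp.single (0 : Fin 2) 1) := fun h =>
    s1 h.symm
  rw [if_pos rfl, if_neg s1] at c1
  rw [if_neg s2, if_pos rfl] at c0
  constructor
  · have : α * ((6 - i : ℕ) : L) = 0 := by linear_combination c1
    exact (mul_eq_zero.1 this).resolve_right n1
  · have : β * (i : L) = 0 := by linear_combination c0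
    exact (mul_eq_zero.1 this).resolve_right n2

theorem exists_e [CharZero L] {U : Submodule L (Fin (4 + 1) → L)} {a : Fin (4 + 1) → L}
    (hd : d 0 = 6)
    (hV : ∀ G : MvPolynomial (Fin (4 + 1)) L, G.IsHomogeneous 6 → rst ![x, y] G = 0 →
      D.V x 0 G ∈ U) {e0 : Fin (4 + 1) → L}
    (he0 : e0 ∉ Submodule.span L (Set.range ![x, y]))
    (hN : ∀ h ∈ IP ![x, y] 6, ff D x y h = 0 ↔ D.V x 0 (lf a * dv e0 h.1) ∈ U)
    (hM : ∀ h ∈ IP ![x, y] 6, rst ![x, y] (dv e0 h.1) = 0 →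
        nv D e0 h ∈ Submodule.span L (Set.range ![x, y, e0]))
    (htv : 2 ≤ finrank L ((IP ![x, y] 6).map (tv D x a U e0)))
    (hE : ∀ E : Fin (4 + 1) → Fin (4 + 1) → L, ff D x y (0, E) = 0)
    {i : ℕ} (h1 : 1 ≤ i) (h5 : i ≤ 5) {t : L} (ht : t ≠ 0)
    (hf : rst ![x, y] (D.F 0) = monomial (m2 (6 - i) i) t) :
    ∃ e : Fin (4 + 1) → L, e ∉ Submodule.span L (Set.range ![x, y]) ∧
      rst ![x, y] (dv e (D.F 0)) = 0 := by
  classical
  have hF : (D.F 0).IsHomogeneous 6 := by have := D.hom 0; rwa [hd] at this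
  -- the form `u`
  obtain ⟨u, hu0, hu1⟩ : ∃ u : Fin (4 + 1) → L,
      (∀ w ∈ Submodule.span L (Set.range ![x, y]), dt u w = 0) ∧ dt u e0 = 1 := by
    have hli : LinearIndependent L
        fun i => (Submodule.span L (Set.range ![x, y])).mkQ ((fun _ : Fin 1 => e0) i) := by
      rw [linearIndependent_unique_iff, Ne, Submodule.mkQ_apply, Submodule.Quotient.mk_eq_zero]
      exact he0
    obtain ⟨u, hu0, hu1⟩ := exists_forms _ (fun _ : Fin 1 => e0) hli
    have := hu1 0 0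
    rw [if_pos rfl] at this
    exact ⟨u 0, hu0 0, this⟩
  have hux : dt u x = 0 := hu0 _ x_mem2
  have huy : dt u y = 0 := hu0 _ y_mem2
  have hru : rst ![x, y] (lf u) = 0 := by
    rw [rst_lf, Fin.sum_univ_two]
    simp [hux, huy]
  let τ : GE L 4 →ₗ[L] (Fin 6 → L) :=
    (coB L 5).comp ((rst ![x, y]).toLinearMap.comp ((dv e0).toLinearMap.comp
      (LinearMap.fst L _ _)))
  have hτ : ∀ g : GE L 4, τ g = coB L 5 (rst ![x, y] (dv e0 g.1)) := fun g => rfl
  have hτ0 : ∀ g ∈ IP (L := L) (n := 4) ![x, y] 6, τ g = 0 → rst ![x, y] (dv e0 g.1) = 0 := by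
    intro g hg h
    exact coB_zero (rst_hom _ (dv_hom (mem_IP.1 hg).1 e0)) h
  let Y : GE L 4 →ₗ[L] ((Fin (4 + 1) → L) ⧸ Submodule.span L (Set.range ![x, y, e0])) :=
    (Submodule.span L (Set.range ![x, y, e0])).mkQ.comp (nv D e0)
  have hY : ∀ g, Y g = (Submodule.span L (Set.range ![x, y, e0])).mkQ (nv D e0 g) := fun g => rfl
  have hY0 : ∀ g, Y g = 0 ↔ nv D e0 g ∈ Submodule.span L (Set.range ![x, y, e0]) := by
    intro g
    rw [hY, Submodule.mkQ_apply, Submodule.Quotient.mk_eq_zero]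
  -- the ranks
  have hr1 := rank_pair_comm τ (tv D x a U e0) (IP ![x, y] 6)
  have z1 : (IP ![x, y] 6 ⊓ LinearMap.ker τ).map (tv D x a U e0) = ⊥ := by
    rw [Submodule.eq_bot_iff]
    rintro _ ⟨m, ⟨hm, hm1⟩, rfl⟩
    rw [tv_zero]
    refine hV _ (lfm_hom a (dv_hom (mem_IP.1 hm).1 _)) ?_
    rw [map_mul, hτ0 m hm (LinearMap.mem_ker.1 hm1), mul_zero]
  have k1 : (IP ![x, y] 6 ⊓ LinearMap.ker (tv D x a U e0)) =
      IP ![x, y] 6 ⊓ LinearMap.ker (ff D x y) := by
    ext g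
    constructor
    · rintro ⟨hg, hg1⟩
      refine ⟨hg, LinearMap.mem_ker.2 ((hN g hg).2 ?_)⟩
      exact (tv_zero D x a U).1 (LinearMap.mem_ker.1 hg1)
    · rintro ⟨hg, hg1⟩
      refine ⟨hg, LinearMap.mem_ker.2 ((tv_zero D x a U).2 ?_)⟩
      exact (hN g hg).1 (LinearMap.mem_ker.1 hg1)
  rw [z1, finrank_bot, k1] at hr1
  have hτ6 : finrank L ((IP ![x, y] 6).map τ) ≤ 6 := by
    have := Submodule.finrank_le ((IP ![x, y] 6).map τ)
    rwa [Module.finrank_fintype_fun_eq_card, Fintype.card_fin] at this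
  set N0 := IP ![x, y] 6 ⊓ LinearMap.ker (ff D x y) with hN0
  have hr2 := rank_pair_comm Y τ N0
  have z2 : (N0 ⊓ LinearMap.ker τ).map Y = ⊥ := by
    rw [Submodule.eq_bot_iff]
    rintro _ ⟨m, ⟨⟨hm, _⟩, hm1⟩, rfl⟩
    rw [hY0]
    exact hM m hm (hτ0 m hm (LinearMap.mem_ker.1 hm1))
  rw [z2, finrank_bot] at hr2
  -- the elements `h_v`
  have hvI : ∀ v : Fin (4 + 1) → L, ((lf u * dv v (D.F 0), 0) : GE L 4) ∈ N0 := by
    intro v
    have hmem : ((lf u * dv v (D.F 0), 0) : GE L 4) ∈ IP (L := L) (n := 4) ![x, y] 6 := by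
      refine mem_IP.2 ⟨lfm_hom u (dv_hom hF v), ?_⟩
      change rst ![x, y] (lf u * dv v (D.F 0)) = 0
      rw [map_mul, hru, zero_mul]
    refine ⟨hmem, LinearMap.mem_ker.2 ?_⟩
    rw [ff_eq_zero, ← af_ten, V_af, V_af, mvL_ten, mvL_ten, hux, huy, zero_smul,
      sub_zero, sub_zero]
    exact (ff_eq_zero D x y).1 (hE _)
  have hE0 : ∀ E : Fin (4 + 1) → Fin (4 + 1) → L,
      nv D e0 (0, E) ∈ Submodule.span L (Set.range ![x, y, e0]) := by
    intro E
    refine hM (0, E) (mem_IP.2 ⟨isHomogeneous_zero _ _ _, map_zero _⟩) ?_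
    change rst ![x, y] (dv e0 0) = 0
    rw [map_zero, map_zero]
  have hvY : ∀ v : Fin (4 + 1) → L, Y (lf u * dv v (D.F 0), 0) =
      - (Submodule.span L (Set.range ![x, y, e0])).mkQ v := by
    intro v
    rw [hY, ← af_ten, V_af, mvL_ten, hu1, one_smul, map_sub]
    have : (Submodule.span L (Set.range ![x, y, e0])).mkQ (nv D e0 (0, ten u v)) = 0 := by
      rw [Submodule.mkQ_apply, Submodule.Quotient.mk_eq_zero]
      exact hE0 _
    rw [this, zero_sub]
  have hYr : 2 ≤ finrank L (N0.map Y) := by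
    have htop : N0.map Y = ⊤ := by
      rw [Submodule.eq_top_iff']
      intro α
      obtain ⟨α, rfl⟩ := Submodule.mkQ_surjective _ α
      refine Submodule.mem_map.2 ⟨-(lf u * dv α (D.F 0), 0), N0.neg_mem (hvI α), ?_⟩
      rw [map_neg, hvY, neg_neg]
    rw [htop, finrank_top]
    have e1 := finrank_quot (Submodule.span L (Set.range ![x, y, e0]))
    have e2 := finrank_span_three (x := x) (y := y) (z := e0)
    omega
  have h2 : finrank L ((N0 ⊓ LinearMap.ker Y).map τ) ≤ 2 := by omega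
  -- the three elements
  let V : Fin 3 → Fin (4 + 1) → L := ![x, y, e0]
  have hmem : ∀ k, τ (lf u * dv (V k) (D.F 0), 0) ∈ (N0 ⊓ LinearMap.ker Y).map τ := by
    intro k
    refine Submodule.mem_map_of_mem ⟨hvI _, LinearMap.mem_ker.2 ?_⟩
    rw [hvY, neg_eq_zero, Submodule.mkQ_apply, Submodule.Quotient.mk_eq_zero]
    exact Submodule.subset_span ⟨k, rfl⟩
  obtain ⟨g, hg, hgi⟩ := dep3 _ h2 _ hmem
  have hτv : ∀ v, τ (lf u * dv v (D.F 0), 0) = coB L 5 (rst ![x, y] (dv v (D.F 0))) := by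
    intro v
    rw [hτ]
    change coB L 5 (rst ![x, y] (dv e0 (lf u * dv v (D.F 0)))) = _
    rw [Derivation.leibniz, smul_eq_mul, smul_eq_mul, map_add, map_mul, map_mul, hru, dv_lf, hu1,
      C_1, map_one, zero_mul, zero_add, mul_one]
  have hsum : rst ![x, y] (dv (∑ k, g k • V k) (D.F 0)) = 0 := by
    refine coB_zero (rst_hom _ (dv_hom hF _)) ?_
    rw [← hg, dv_sum, map_sum, map_sum]
    refine Finset.sum_congr rfl fun k _ => ?_
    rw [hτv, dv_smul, rst_smul, map_smul]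
  rw [Fin.sum_univ_three] at hsum
  have hV0 : V 0 = x := rfl
  have hV1 : V 1 = y := rfl
  have hV2 : V 2 = e0 := rfl
  rw [hV0, hV1, hV2] at hsum
  have hg2 : g 2 ≠ 0 := by
    intro h0
    rw [h0, zero_smul, add_zero, dv_add, dv_smul, dv_smul, map_add, rst_smul, rst_smul] at hsum
    have p0 : rst ![x, y] (dv x (D.F 0)) = pderiv 0 (rst ![x, y] (D.F 0)) := by
      rw [pderiv_rst]; rfl
    have p1 : rst ![x, y] (dv y (D.F 0)) = pderiv 1 (rst ![x, y] (D.F 0)) := by
      rw [pderiv_rst]; rfl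
    rw [p0, p1, smul_eq_C_mul, smul_eq_C_mul] at hsum
    have h3 := pd_indep h1 h5 ht hf hsum
    obtain ⟨k, hk⟩ := hgi
    fin_cases k
    · exact hk h3.1
    · exact hk h3.2
    · exact hk h0
  refine ⟨g 0 • x + g 1 • y + g 2 • e0, ?_, hsum⟩
  intro h
  apply he0
  have h3 : g 2 • e0 ∈ Submodule.span L (Set.range ![x, y]) := by
    have h4 := Submodule.sub_mem _ h (Submodule.add_mem _ (Submodule.smul_mem _ (g 0)
      (x_mem2 (x := x) (y := y))) (Submodule.smul_mem _ (g 1) (y_mem2 (x := x) (y := y))))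
    rwa [add_sub_cancel_left] at h4
  have h4 := Submodule.smul_mem _ (g 2)⁻¹ h3
  rwa [smul_smul, inv_mul_cancel₀ hg2, one_smul] at h4

end

end Pool.Agent.T2.H65
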